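import Mathlib

/-!
Telescoping identities for the sums of `binom(x,k) binom(-1-x,k) / (2k+1)` and a small calculus of
congruences modulo powers of a prime among rational numbers.
-/

set_option autoImplicit false

open Finset

namespace Pool.Agent.K3h3.Cat

/-- `binom(x,k) binom(-1-x,k)` -/
def u (k : ℕ) (x : ℚ) : ℚ := ∏ j ∈ range k, ((j - x) * (j + 1 + x) / (j + 1) ^ 2)

/-- `∏_{j=1}^{n} (1 - x²/j²)` -/
def P (n : ℕ) (x : ℚ) : ℚ := ∏ j ∈ range n, (1 - x ^ 2 / (j + 1) ^ 2)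

theorem u_zero (x : ℚ) : u 0 x = 1 := by simp [u]

theorem u_succ (n : ℕ) (x : ℚ) :
    u (n + 1) x = u n x * ((n - x) * (n + 1 + x) / (n + 1) ^ 2) := by
  unfold u
  rw [prod_range_succ]

theorem P_succ (n : ℕ) (x : ℚ) : P (n + 1) x = P n x * (1 - x ^ 2 / (n + 1) ^ 2) := by
  unfold P
  rw [prod_range_succ]

theorem u_succ_eq (n : ℕ) (x : ℚ) :
    u (n + 1) x = -(x * (n + 1 + x)) / (n + 1) ^ 2 * P n x := by
  induction n with
  | zero => simp [u, P]
  | succ n ih =>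
    rw [u_succ, ih, P_succ]
    have h1 : (n : ℚ) + 1 ≠ 0 := by positivity
    have h2 : (n : ℚ) + 1 + 1 ≠ 0 := by positivity
    push_cast
    field_simp
    ring

theorem u_succ_eq' (n : ℕ) (x : ℚ) :
    u (n + 1) (x - 1) = x * (n + 1 - x) / (n + 1) ^ 2 * P n x := by
  induction n with
  | zero => simp [u, P]; ring
  | succ n ih =>
    rw [u_succ, ih, P_succ]
    have h1 : (n : ℚ) + 1 ≠ 0 := by positivity
    have h2 : (n : ℚ) + 1 + 1 ≠ 0 := by positivity
    push_cast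
    field_simp
    ring

/-- `(2x+1) ∑_{k<n} binom(x,k) binom(-1-x,k)/(2k+1)` -/
def T (n : ℕ) (x : ℚ) : ℚ := (2 * x + 1) * ∑ k ∈ range n, u k x / (2 * k + 1)

theorem T_sub (n : ℕ) (x : ℚ) : T (n + 1) x - T (n + 1) (x - 1) = 2 * P n x := by
  induction n with
  | zero => simp [T, u, P]; ring
  | succ n ih =>
    have e1 : T (n + 1 + 1) x = T (n + 1) x + (2 * x + 1) * (u (n + 1) x / (2 * (n + 1 : ℕ) + 1)) := by
      unfold T
      rw [sum_range_succ, mul_add]
    have e2 : T (n + 1 + 1) (x - 1) = T (n + 1) (x - 1) +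
        (2 * (x - 1) + 1) * (u (n + 1) (x - 1) / (2 * (n + 1 : ℕ) + 1)) := by
      unfold T
      rw [sum_range_succ, mul_add]
    rw [e1, e2, u_succ_eq, u_succ_eq', P_succ]
    have h1 : (n : ℚ) + 1 ≠ 0 := by positivity
    have h2 : 2 * ((n : ℚ) + 1) + 1 ≠ 0 := by positivity
    have h3 : T (n + 1) x = T (n + 1) (x - 1) + 2 * P n x := by linarith
    rw [h3]
    push_cast
    field_simp
    ring

/-! ### rational numbers integral at `p` -/

section Padic

variable (p : ℕ) [hp : Fact p.Prime]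

/-- The rational numbers whose denominator is prime to `p`. -/
def Zp : Subring ℚ where
  carrier := {x | ¬ p ∣ x.den}
  mul_mem' := by
    intro a b ha hb h
    have h1 := h.trans (Rat.mul_den_dvd a b)
    rcases (Nat.Prime.dvd_mul hp.out).1 h1 with h2 | h2
    · exact ha h2
    · exact hb h2
  one_mem' := by
    simpa using hp.out.one_lt.ne'
  add_mem' := by
    intro a b ha hb h
    have h1 := h.trans (Rat.add_den_dvd a b)
    rcases (Nat.Prime.dvd_mul hp.out).1 h1 with h2 | h2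
    · exact ha h2
    · exact hb h2
  zero_mem' := by
    simpa using hp.out.one_lt.ne'
  neg_mem' := by
    intro a ha
    simpa using ha

/-- `x` is divisible by `p ^ n` among the rational numbers integral at `p`. -/
def M (n : ℕ) (x : ℚ) : Prop := ∃ y ∈ Zp p, x = (p : ℚ) ^ n * y

variable {p}

theorem mem_nat (n : ℕ) : (n : ℚ) ∈ Zp p := natCast_mem _ n

theorem mem_int (n : ℤ) : (n : ℚ) ∈ Zp p := intCast_mem _ n

theorem inv_mem {n : ℕ} (h : ¬ p ∣ n) : ((n : ℚ))⁻¹ ∈ Zp p := by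
  have hn : n ≠ 0 := by rintro rfl; simp at h
  show ¬ p ∣ ((n : ℚ)⁻¹).den
  rw [Rat.inv_natCast_den_of_pos (Nat.pos_of_ne_zero hn)]
  exact h

theorem M_zero {x : ℚ} : M p 0 x ↔ x ∈ Zp p := by
  simp [M]

theorem M_add {n : ℕ} {x y : ℚ} (hx : M p n x) (hy : M p n y) : M p n (x + y) := by
  obtain ⟨a, ha, rfl⟩ := hx
  obtain ⟨b, hb, rfl⟩ := hy
  exact ⟨a + b, add_mem ha hb, by ring⟩

theorem M_neg {n : ℕ} {x : ℚ} (hx : M p n x) : M p n (-x) := by
  obtain ⟨a, ha, rfl⟩ := hx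
  exact ⟨-a, neg_mem ha, by ring⟩

theorem M_sub {n : ℕ} {x y : ℚ} (hx : M p n x) (hy : M p n y) : M p n (x - y) := by
  rw [sub_eq_add_neg]
  exact M_add hx (M_neg hy)

theorem M_mul {m n : ℕ} {x y : ℚ} (hx : M p m x) (hy : M p n y) : M p (m + n) (x * y) := by
  obtain ⟨a, ha, rfl⟩ := hx
  obtain ⟨b, hb, rfl⟩ := hy
  exact ⟨a * b, mul_mem ha hb, by ring⟩

theorem M_smul {n : ℕ} {x y : ℚ} (hx : x ∈ Zp p) (hy : M p n y) : M p n (x * y) := by
  have := M_mul (M_zero.2 hx) hy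
  simpa using this

theorem M_smul' {n : ℕ} {x y : ℚ} (hx : x ∈ Zp p) (hy : M p n y) : M p n (y * x) := by
  rw [mul_comm]; exact M_smul hx hy

theorem M_mem {n : ℕ} {x : ℚ} (hx : M p n x) : x ∈ Zp p := by
  obtain ⟨a, ha, rfl⟩ := hx
  exact mul_mem (pow_mem (mem_nat p) n) ha

theorem M_sum {ι : Type*} {n : ℕ} (s : Finset ι) (f : ι → ℚ) (h : ∀ i ∈ s, M p n (f i)) :
    M p n (∑ i ∈ s, f i) := by
  classical
  induction s using Finset.induction_on with
  | empty => exact ⟨0, zero_mem _, by simp⟩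
  | insert a s ha ih =>
    rw [sum_insert ha]
    exact M_add (h a (mem_insert_self _ _)) (ih fun i hi => h i (mem_insert_of_mem hi))

theorem M_p : M p 1 (p : ℚ) := ⟨1, one_mem _, by ring⟩

theorem M_prod {ι : Type*} [DecidableEq ι] (s : Finset ι) (f : ι → ℚ) (h : ∀ i ∈ s, f i ∈ Zp p)
    (i : ι) (hi : i ∈ s) (hf : M p 1 (f i)) : M p 1 (∏ i ∈ s, f i) := by
  rw [← Finset.mul_prod_erase s f hi]
  exact M_smul' (prod_mem fun j hj => h j (mem_of_mem_erase hj)) hf

theorem M_num {n : ℕ} {x : ℚ} (hx : M p n x) : ((p : ℤ) ^ n) ∣ x.num := by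
  obtain ⟨y, hy, rfl⟩ := hx
  set x := (p : ℚ) ^ n * y with hxd
  have h1 : x * y.den = (p : ℚ) ^ n * y.num := by
    rw [hxd, mul_assoc, Rat.mul_den_eq_num]
  have h2 : (x.num : ℚ) * y.den = (p : ℚ) ^ n * y.num * x.den := by
    rw [← h1, ← Rat.mul_den_eq_num x]; ring
  have h3 : x.num * (y.den : ℤ) = (p : ℤ) ^ n * y.num * x.den := by exact_mod_cast h2
  have h4 : ((p : ℤ) ^ n) ∣ x.num * (y.den : ℤ) := ⟨y.num * x.den, by rw [h3]; ring⟩
  have h5 : IsCoprime ((p : ℤ) ^ n) (y.den : ℤ) := by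
    apply IsCoprime.pow_left
    rw [Nat.isCoprime_iff_coprime]
    exact (Nat.Prime.coprime_iff_not_dvd hp.out).2 hy
  exact h5.dvd_of_dvd_mul_right h4

omit hp in
theorem not_dvd_of_lt {n : ℕ} (h0 : 0 < n) (h1 : n < p) : ¬ p ∣ n :=
  fun h => absurd (Nat.le_of_dvd h0 h) (by omega)

/-- the inverse of `j + 1` -/
theorem inv_succ_mem {j : ℕ} (h : j + 1 < p) : ((j : ℚ) + 1)⁻¹ ∈ Zp p := by
  have := inv_mem (p := p) (n := j + 1) (not_dvd_of_lt (by omega) h)
  simpa using this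

/-- `P (p-1) x` vanishes modulo `p²` if `x` is a unit modulo `p`. -/
theorem P_mem (t : ℚ) (ht : t ∈ Zp p) (s : ℕ) (h1 : 1 ≤ s) (h2 : s < p) :
    M p 2 (P (p - 1) (p * t + s)) := by
  set x : ℚ := p * t + s with hx
  have hxm : x ∈ Zp p := add_mem (mul_mem (mem_nat p) ht) (mem_nat s)
  have hfac : P (p - 1) x = (∏ j ∈ range (p - 1), (1 - x / ((j : ℚ) + 1))) *
      (∏ j ∈ range (p - 1), (1 + x / ((j : ℚ) + 1))) := by
    unfold P
    rw [← prod_mul_distrib]
    refine prod_congr rfl fun j _ => ?_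
    have : (j : ℚ) + 1 ≠ 0 := by positivity
    field_simp
    ring
  rw [hfac]
  have hj : ∀ j ∈ range (p - 1), x / ((j : ℚ) + 1) ∈ Zp p := by
    intro j hj
    rw [mem_range] at hj
    rw [div_eq_mul_inv]
    exact mul_mem hxm (inv_succ_mem (by omega))
  refine M_mul (m := 1) (n := 1) ?_ ?_
  · refine M_prod _ _ (fun j hj' => sub_mem (one_mem _) (hj j hj')) (s - 1)
      (by rw [mem_range]; omega) ?_
    have hs : ((s - 1 : ℕ) : ℚ) + 1 = s := by
      have : ((s - 1 + 1 : ℕ) : ℚ) = s := by congr 1; omega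
      push_cast at this
      exact this
    rw [hs]
    have hs0 : (s : ℚ) ≠ 0 := by positivity
    refine ⟨-t * (s : ℚ)⁻¹, mul_mem (neg_mem ht) (inv_mem (not_dvd_of_lt h1 h2)), ?_⟩
    rw [hx]
    field_simp
    ring
  · refine M_prod _ _ (fun j hj' => add_mem (one_mem _) (hj j hj')) (p - s - 1)
      (by rw [mem_range]; omega) ?_
    have hs : ((p - s - 1 : ℕ) : ℚ) + 1 = (p - s : ℕ) := by
      have : ((p - s - 1 + 1 : ℕ) : ℚ) = (p - s : ℕ) := by congr 1; omega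
      push_cast at this
      exact this
    rw [hs]
    have hps : ((p - s : ℕ) : ℚ) = p - s := by
      rw [Nat.cast_sub h2.le]
    have hs0 : ((p - s : ℕ) : ℚ) ≠ 0 := by
      have : 0 < p - s := by omega
      positivity
    refine ⟨(1 + t) * ((p - s : ℕ) : ℚ)⁻¹, mul_mem (add_mem (one_mem _) ht)
      (inv_mem (not_dvd_of_lt (by omega) (by omega))), ?_⟩
    rw [hx]
    field_simp
    rw [hps]
    ring

theorem T_shift (t : ℚ) (ht : t ∈ Zp p) (s : ℕ) (h2 : s < p) :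
    M p 2 (T p (p * t + s) - T p (p * t)) := by
  induction s with
  | zero => exact ⟨0, zero_mem _, by simp⟩
  | succ s ih =>
    have h := T_sub (p - 1) ((p : ℚ) * t + (s + 1 : ℕ))
    have hp1 : p - 1 + 1 = p := Nat.sub_add_cancel hp.out.one_lt.le
    rw [hp1] at h
    have e : (p : ℚ) * t + (s + 1 : ℕ) - 1 = p * t + s := by push_cast; ring
    rw [e] at h
    have h3 : T p (p * t + (s + 1 : ℕ)) - T p (p * t) =
        (T p (p * t + s) - T p (p * t)) + 2 * P (p - 1) (p * t + (s + 1 : ℕ)) := by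
      rw [← h]; ring
    rw [h3]
    exact M_add (ih (by omega)) (M_smul (by exact_mod_cast mem_nat 2) (P_mem t ht (s + 1) (by omega) h2))

theorem P_pt (t : ℚ) (ht : t ∈ Zp p) (n : ℕ) (hn : n < p) : M p 2 (P n (p * t) - 1) := by
  induction n with
  | zero => exact ⟨0, zero_mem _, by simp [P]⟩
  | succ n ih =>
    obtain ⟨y, hy, hy'⟩ := ih (by omega)
    have e : P n (p * t) = 1 + (p : ℚ) ^ 2 * y := by linarith
    rw [P_succ, e]
    have h1 : ((n : ℚ) + 1)⁻¹ ∈ Zp p := inv_succ_mem hn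
    refine ⟨y - (1 + (p : ℚ) ^ 2 * y) * (t * ((n : ℚ) + 1)⁻¹) ^ 2, ?_, ?_⟩
    · exact sub_mem hy (mul_mem (add_mem (one_mem _) (mul_mem (pow_mem (mem_nat p) 2) hy))
        (pow_mem (mul_mem ht h1) 2))
    · have : (n : ℚ) + 1 ≠ 0 := by positivity
      field_simp
      ring

end Padic

end Pool.Agent.K3h3.Cat
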