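import Pool.Agent.K3h3.Cat1

set_option autoImplicit false

open Finset

namespace Pool.Agent.K3h3.Cat

section Padic

variable {p : ℕ} [hp : Fact p.Prime]

/-- `∑_{j=1}^{p-1} 1/j ≡ 0 (mod p)` -/
theorem harm (h3 : 3 < p) : M p 1 (∑ n ∈ range (p - 1), (1 : ℚ) / (n + 1)) := by
  have hr := Finset.sum_range_reflect (fun n : ℕ => (1 : ℚ) / (n + 1)) (p - 1)
  have h2 : M p 1 (∑ n ∈ range (p - 1), ((1 : ℚ) / (n + 1) + 1 / ((p - 1 - 1 - n : ℕ) + 1))) := by
    refine M_sum _ _ fun n hn => ?_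
    rw [mem_range] at hn
    have e : ((p - 1 - 1 - n : ℕ) : ℚ) + 1 = ((p - 1 - n : ℕ) : ℚ) := by
      have : ((p - 1 - 1 - n + 1 : ℕ) : ℚ) = ((p - 1 - n : ℕ) : ℚ) := by congr 1; omega
      push_cast at this
      exact this
    rw [e]
    have e2 : ((p - 1 - n : ℕ) : ℚ) = p - (n + 1) := by
      have h := Nat.cast_sub (R := ℚ) (show n + 1 ≤ p by omega)
      rw [show p - (n + 1) = p - 1 - n by omega] at h
      rw [h]; push_cast; ring
    have hpos : ((p - 1 - n : ℕ) : ℚ) ≠ 0 := by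
      have : 0 < p - 1 - n := by omega
      positivity
    refine ⟨((n : ℚ) + 1)⁻¹ * (((p - 1 - n : ℕ) : ℚ))⁻¹, mul_mem (inv_succ_mem (by omega))
      (inv_mem (not_dvd_of_lt (by omega) (by omega))), ?_⟩
    have : (n : ℚ) + 1 ≠ 0 := by positivity
    rw [e2] at hpos ⊢
    field_simp
    ring
  rw [sum_add_distrib, hr] at h2
  obtain ⟨y, hy, e⟩ := h2
  refine ⟨((2 : ℕ) : ℚ)⁻¹ * y, mul_mem (inv_mem (not_dvd_of_lt (by omega) (by omega))) hy, ?_⟩
  push_cast
  linarith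

/-- `∑ 1/(2k+1) ≡ 0 (mod p)`, over `0 ≤ k < p` with `2k+1 ≠ p` -/
theorem oddharm (h3 : 3 < p) :
    M p 1 (∑ k ∈ range p, (if 2 * k + 1 = p then (0 : ℚ) else 1 / (2 * k + 1))) := by
  have hr := Finset.sum_range_reflect
    (fun k : ℕ => (if 2 * k + 1 = p then (0 : ℚ) else 1 / (2 * k + 1))) p
  have h2 : M p 1 (∑ k ∈ range p, ((if 2 * k + 1 = p then (0 : ℚ) else 1 / (2 * k + 1)) +
      (if 2 * (p - 1 - k) + 1 = p then (0 : ℚ) else 1 / (2 * (p - 1 - k : ℕ) + 1)))) := by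
    refine M_sum _ _ fun k hk => ?_
    rw [mem_range] at hk
    by_cases hc : 2 * k + 1 = p
    · rw [if_pos hc, if_pos (by omega)]
      exact ⟨0, zero_mem _, by simp⟩
    · rw [if_neg hc, if_neg (by omega)]
      have e2 : ((p - 1 - k : ℕ) : ℚ) = p - (k + 1) := by
        have h := Nat.cast_sub (R := ℚ) (show k + 1 ≤ p by omega)
        rw [show p - (k + 1) = p - 1 - k by omega] at h
        rw [h]; push_cast; ring
      have n1 : ¬ p ∣ 2 * k + 1 := by
        rintro ⟨c, hc'⟩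
        have : c < 2 := by
          by_contra hcc
          have : p * 2 ≤ p * c := Nat.mul_le_mul_left _ (by omega)
          omega
        interval_cases c <;> omega
      have n2 : ¬ p ∣ 2 * (p - 1 - k) + 1 := by
        rintro ⟨c, hc'⟩
        have : c < 2 := by
          by_contra hcc
          have : p * 2 ≤ p * c := Nat.mul_le_mul_left _ (by omega)
          omega
        interval_cases c <;> omega
      have i1 := inv_mem n1
      have i2 := inv_mem n2
      push_cast at i1 i2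
      refine ⟨2 * ((2 * (k : ℚ) + 1)⁻¹ * (2 * ((p - 1 - k : ℕ) : ℚ) + 1)⁻¹), ?_, ?_⟩
      · exact mul_mem (by exact_mod_cast mem_nat 2) (mul_mem i1 i2)
      · have q1 : 2 * (k : ℚ) + 1 ≠ 0 := by positivity
        have q2 : 2 * ((p - 1 - k : ℕ) : ℚ) + 1 ≠ 0 := by positivity
        rw [e2] at q2 ⊢
        field_simp
        ring
  rw [sum_add_distrib, hr] at h2
  obtain ⟨y, hy, e⟩ := h2
  refine ⟨((2 : ℕ) : ℚ)⁻¹ * y, mul_mem (inv_mem (not_dvd_of_lt (by omega) (by omega))) hy, ?_⟩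
  push_cast
  linarith

/-- `∑ 1/(k(2k+1)) ≡ 4 (mod p)`, over `1 ≤ k < p` with `2k+1 ≠ p`; here `k = n + 1`. -/
theorem csum (h3 : 3 < p) (m : ℕ) (hm : p = 2 * m + 1) :
    M p 1 (∑ n ∈ range (p - 1),
      (if 2 * (n + 1) + 1 = p then (0 : ℚ) else 1 / ((n + 1) * (2 * (n + 1) + 1))) - 4) := by
  have hp1 : p - 1 + 1 = p := Nat.sub_add_cancel hp.out.one_lt.le
  have h1 := harm h3
  have h2 := oddharm h3
  have h2' : ∑ k ∈ range p, (if 2 * k + 1 = p then (0 : ℚ) else 1 / (2 * k + 1)) =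
      1 + ∑ n ∈ range (p - 1),
        (if 2 * (n + 1) + 1 = p then (0 : ℚ) else 1 / (2 * ((n : ℚ) + 1) + 1)) := by
    conv_lhs => rw [← hp1]
    rw [sum_range_succ']
    rw [if_neg (by omega)]
    have : ∀ n : ℕ, (((n + 1 : ℕ) : ℚ)) = (n : ℚ) + 1 := fun n => by push_cast; ring
    simp only [this, hp1]
    norm_num
    ring
  have h4 : ∑ n ∈ range (p - 1),
      (if 2 * (n + 1) + 1 = p then (0 : ℚ) else 1 / (((n : ℚ) + 1) * (2 * (n + 1) + 1))) =
      ∑ n ∈ range (p - 1), (1 : ℚ) / (n + 1) - 1 / m - 2 * ∑ n ∈ range (p - 1),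
        (if 2 * (n + 1) + 1 = p then (0 : ℚ) else 1 / (2 * ((n : ℚ) + 1) + 1)) := by
    have e : (1 : ℚ) / m = ∑ n ∈ range (p - 1),
        (if 2 * (n + 1) + 1 = p then (1 : ℚ) / (n + 1) else 0) := by
      rw [Finset.sum_eq_single (m - 1)]
      · rw [if_pos (by omega)]
        congr 1
        have : ((m - 1 + 1 : ℕ) : ℚ) = m := by congr 1; omega
        push_cast at this
        exact this.symm
      · intro b _ hb
        rw [if_neg (by omega)]
      · intro hh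
        exact absurd (mem_range.2 (by omega)) hh
    rw [e, mul_sum, ← sum_sub_distrib, ← sum_sub_distrib]
    refine sum_congr rfl fun n _ => ?_
    split_ifs
    · ring
    · have : (n : ℚ) + 1 ≠ 0 := by positivity
      have : 2 * ((n : ℚ) + 1) + 1 ≠ 0 := by positivity
      field_simp
      ring
  rw [h4]
  set A := ∑ n ∈ range (p - 1), (1 : ℚ) / (n + 1)
  set B := ∑ n ∈ range (p - 1),
        (if 2 * (n + 1) + 1 = p then (0 : ℚ) else 1 / (2 * ((n : ℚ) + 1) + 1))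
  rw [h2'] at h2
  have hm0 : (m : ℚ) ≠ 0 := by
    have : 0 < m := by omega
    positivity
  have h5 : M p 1 (-(p : ℚ) * (m : ℚ)⁻¹) := by
    refine M_smul' (inv_mem (not_dvd_of_lt (by omega) (by omega))) (M_neg M_p)
  have h6 : A - 1 / m - 2 * B - 4 = A - 2 * (1 + B) + (-(p : ℚ) * (m : ℚ)⁻¹) := by
    have : (p : ℚ) = 2 * m + 1 := by exact_mod_cast hm
    rw [this]
    field_simp
    ring
  rw [h6]
  exact M_add (M_sub h1 (M_smul (by exact_mod_cast mem_nat 2) h2)) h5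

/-- the value at `p t` -/
theorem T_pt (h3 : 3 < p) (t : ℚ) (ht : t ∈ Zp p) : M p 2 (T p (p * t) - (1 + 2 * t)) := by
  have hp1 : p - 1 + 1 = p := Nat.sub_add_cancel hp.out.one_lt.le
  obtain ⟨m, hm⟩ : ∃ m, p = 2 * m + 1 := by
    rcases hp.out.eq_two_or_odd' with h | ⟨m, hm⟩
    · omega
    · exact ⟨m, hm⟩
  have hm0 : (m : ℚ) ≠ 0 := by
    have : 0 < m := by omega
    positivity
  have hmi : (m : ℚ)⁻¹ ∈ Zp p := inv_mem (not_dvd_of_lt (by omega) (by omega))
  obtain ⟨c, hc, hc'⟩ := csum h3 m hm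
  -- the sum
  have hS : M p 2 (∑ k ∈ range p, u k (p * t) / (2 * k + 1) -
      (1 - p * t * (∑ n ∈ range (p - 1),
      (if 2 * (n + 1) + 1 = p then (0 : ℚ) else 1 / ((n + 1) * (2 * (n + 1) + 1)))) -
      t * (m + p * t) / m ^ 2)) := by
    have e1 : ∑ k ∈ range p, u k (p * t) / (2 * k + 1) =
        1 + ∑ n ∈ range (p - 1), u (n + 1) (p * t) / (2 * ((n : ℚ) + 1) + 1) := by
      rw [show range p = range (p - 1 + 1) by rw [hp1], sum_range_succ', u_zero]
      have : ∀ n : ℕ, (((n + 1 : ℕ) : ℚ)) = (n : ℚ) + 1 := fun n => by push_cast; ring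
      simp only [this]
      norm_num
      ring
    have e2 : t * (m + p * t) / m ^ 2 = ∑ n ∈ range (p - 1),
        (if 2 * (n + 1) + 1 = p then t * ((n + 1) + p * t) / ((n : ℚ) + 1) ^ 2 else 0) := by
      rw [Finset.sum_eq_single (m - 1)]
      · rw [if_pos (by omega)]
        have : ((m - 1 + 1 : ℕ) : ℚ) = m := by congr 1; omega
        push_cast at this
        rw [this]
      · intro b _ hb
        rw [if_neg (by omega)]
      · intro hh
        exact absurd (mem_range.2 (by omega)) hh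
    have e3 : (∑ k ∈ range p, u k (p * t) / (2 * k + 1) -
      (1 - p * t * (∑ n ∈ range (p - 1),
      (if 2 * (n + 1) + 1 = p then (0 : ℚ) else 1 / ((n + 1) * (2 * (n + 1) + 1)))) -
      t * (m + p * t) / m ^ 2)) = ∑ n ∈ range (p - 1), (u (n + 1) (p * t) / (2 * ((n : ℚ) + 1) + 1)
        + p * t * (if 2 * (n + 1) + 1 = p then (0 : ℚ) else 1 / ((n + 1) * (2 * (n + 1) + 1))) +
        (if 2 * (n + 1) + 1 = p then t * ((n + 1) + p * t) / ((n : ℚ) + 1) ^ 2 else 0)) := by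
      rw [e1, e2, sum_add_distrib, sum_add_distrib, mul_sum]
      ring
    rw [e3]
    refine M_sum _ _ fun n hn => ?_
    rw [mem_range] at hn
    obtain ⟨y, hy, hy'⟩ := P_pt t ht n (by omega)
    have hP : P n (p * t) = 1 + (p : ℚ) ^ 2 * y := by linarith
    have hi : ((n : ℚ) + 1)⁻¹ ∈ Zp p := inv_succ_mem (by omega)
    have hn0 : (n : ℚ) + 1 ≠ 0 := by positivity
    have hpm : (p : ℚ) ∈ Zp p := mem_nat p
    have hn1 : (n : ℚ) + 1 ∈ Zp p := by exact_mod_cast mem_nat (n + 1)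
    rw [u_succ_eq, hP]
    by_cases hc : 2 * (n + 1) + 1 = p
    · rw [if_pos hc, if_pos hc]
      have hcp : 2 * ((n : ℚ) + 1) + 1 = p := by exact_mod_cast hc
      have hp0 : (p : ℚ) ≠ 0 := by exact_mod_cast hp.out.ne_zero
      rw [hcp]
      refine ⟨-t * (n + 1 + p * t) * y * ((n : ℚ) + 1)⁻¹ ^ 2, ?_, ?_⟩
      · exact mul_mem (mul_mem (mul_mem (neg_mem ht) (add_mem hn1 (mul_mem hpm ht))) hy)
          (pow_mem hi 2)
      · field_simp
        ring
    · rw [if_neg hc, if_neg hc]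
      have n1 : ¬ p ∣ 2 * (n + 1) + 1 := by
        rintro ⟨c, hc'⟩
        have : c < 2 := by
          by_contra hcc
          have : p * 2 ≤ p * c := Nat.mul_le_mul_left _ (by omega)
          omega
        interval_cases c <;> omega
      have i1 := inv_mem n1
      push_cast at i1
      have q1 : 2 * ((n : ℚ) + 1) + 1 ≠ 0 := by positivity
      refine ⟨-(t ^ 2 + p * t * (n + 1 + p * t) * y) * ((n : ℚ) + 1)⁻¹ ^ 2 *
        (2 * ((n : ℚ) + 1) + 1)⁻¹, ?_, ?_⟩
      · refine mul_mem (mul_mem (neg_mem (add_mem (pow_mem ht 2) (mul_mem (mul_mem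
          (mul_mem hpm ht) (add_mem hn1 (mul_mem hpm ht))) hy))) (pow_mem hi 2)) i1
      · field_simp
        ring
  obtain ⟨z, hz, hz'⟩ := hS
  have hp2 : (p : ℚ) = 2 * m + 1 := by exact_mod_cast hm
  have hC : (∑ n ∈ range (p - 1),
      (if 2 * (n + 1) + 1 = p then (0 : ℚ) else 1 / ((n + 1) * (2 * (n + 1) + 1)))) =
      4 + p * c := by
    linarith [hc', pow_one (p : ℚ)]
  rw [hC] at hz'
  have hSS : ∑ k ∈ range p, u k (p * t) / (2 * k + 1) =
      (1 - p * t * (4 + p * c) - t * (m + p * t) / m ^ 2) + (p : ℚ) ^ 2 * z := by linarith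
  have hpm : (p : ℚ) ∈ Zp p := mem_nat p
  have h2m : (2 : ℚ) ∈ Zp p := by exact_mod_cast mem_nat 2
  have h4m : (4 : ℚ) ∈ Zp p := by exact_mod_cast mem_nat 4
  unfold T
  rw [hSS]
  -- explicit cofactor; `m = (p-1)/2`
  refine ⟨(2 * (p * t) + 1) * (z - t * c) +
    (2 * t - 12 * t ^ 2 - 8 * t ^ 3 - 2 * p * t + 16 * p * t ^ 2 - 8 * p ^ 2 * t ^ 2) *
      (((2 : ℕ) : ℚ)⁻¹ * (m : ℚ)⁻¹) ^ 2, ?_, ?_⟩
  · have h12 : (12 : ℚ) ∈ Zp p := by exact_mod_cast mem_nat 12
    have h8 : (8 : ℚ) ∈ Zp p := by exact_mod_cast mem_nat 8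
    have h16 : (16 : ℚ) ∈ Zp p := by exact_mod_cast mem_nat 16
    refine add_mem (mul_mem (add_mem (mul_mem h2m (mul_mem hpm ht)) (one_mem _))
      (sub_mem hz (mul_mem ht hc))) (mul_mem ?_ (pow_mem (mul_mem
        (inv_mem (not_dvd_of_lt (by omega) (by omega))) hmi) 2))
    refine sub_mem (add_mem (sub_mem (sub_mem (sub_mem (mul_mem h2m ht)
      (mul_mem h12 (pow_mem ht 2))) (mul_mem h8 (pow_mem ht 3)))
      (mul_mem (mul_mem h2m hpm) ht)) (mul_mem (mul_mem h16 hpm) (pow_mem ht 2)))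
      (mul_mem (mul_mem h8 (pow_mem hpm 2)) (pow_mem ht 2))
  · push_cast
    rw [hp2]
    field_simp
    ring

/-- The supercongruence for general `x = p t + r`. -/
theorem T_main (h3 : 3 < p) (t : ℚ) (ht : t ∈ Zp p) (r : ℕ) (hr : r < p) :
    M p 2 (T p (p * t + r) - (1 + 2 * t)) := by
  have h1 := T_shift t ht r hr
  have h2 := T_pt h3 t ht
  have h := M_add h1 h2
  have e : T p (p * t + r) - T p (p * t) + (T p (p * t) - (1 + 2 * t)) =
    T p (p * t + r) - (1 + 2 * t) := by ring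
  rwa [e] at h

end Padic

end Pool.Agent.K3h3.Cat
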