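import Pool.Agent.K3h3.Cat2

set_option autoImplicit false

open Finset

namespace Pool.Agent.K3h3.Cat

/-- `binom(2k,k) binom(3k,k) / 27^k` -/
def a (k : ℕ) : ℚ := ((2 * k).choose k : ℚ) * ((3 * k).choose k : ℚ) / 27 ^ k

theorem a_fact (k : ℕ) : a k = ((3 * k).factorial : ℚ) / ((k.factorial : ℚ) ^ 3 * 27 ^ k) := by
  unfold a
  rw [Nat.cast_choose ℚ (show k ≤ 2 * k by omega), Nat.cast_choose ℚ (show k ≤ 3 * k by omega)]
  rw [show 2 * k - k = k by omega, show 3 * k - k = 2 * k by omega]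
  have h1 : ((2 * k).factorial : ℚ) ≠ 0 := by positivity
  have h2 : (k.factorial : ℚ) ≠ 0 := by positivity
  field_simp

theorem a_u (k : ℕ) : a k = u k (-1 / 3) := by
  induction k with
  | zero => simp [a, u]
  | succ k ih =>
    rw [u_succ, ← ih, a_fact, a_fact]
    have h2 : (k.factorial : ℚ) ≠ 0 := by positivity
    have h3 : ((3 * k).factorial : ℚ) ≠ 0 := by positivity
    have h4 : (k : ℚ) + 1 ≠ 0 := by positivity
    rw [show 3 * (k + 1) = 3 * k + 1 + 1 + 1 by ring, Nat.factorial_succ, Nat.factorial_succ,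
      Nat.factorial_succ, Nat.factorial_succ k]
    push_cast
    field_simp
    ring

theorem sum_a_div (n : ℕ) : ∑ k ∈ range n, a k / (k + 1) = 9 / 2 * n * a n := by
  induction n with
  | zero => simp
  | succ n ih =>
    rw [sum_range_succ, ih, a_u, a_u, u_succ]
    have h4 : (n : ℚ) + 1 ≠ 0 := by positivity
    push_cast
    field_simp
    ring

/-- `binom(x+1,j) binom(-x,j)` -/
def v (j : ℕ) (x : ℚ) : ℚ := ∏ i ∈ range j, ((i - 1 - x) * (i + x) / (i + 1) ^ 2)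

def R (n : ℕ) (x : ℚ) : ℚ := ∏ i ∈ range n, ((i - x) * (i + x) / (i + 1) ^ 2)

def V (n : ℕ) (x : ℚ) : ℚ := ∑ j ∈ range n, v j x

theorem v_succ (n : ℕ) (x : ℚ) :
    v (n + 1) x = v n x * ((n - 1 - x) * (n + x) / (n + 1) ^ 2) := by
  unfold v
  rw [prod_range_succ]

theorem R_succ (n : ℕ) (x : ℚ) : R (n + 1) x = R n x * ((n - x) * (n + x) / (n + 1) ^ 2) := by
  unfold R
  rw [prod_range_succ]

theorem v_eq (n : ℕ) (x : ℚ) : v (n + 1) x = -((1 + x) * (n + x)) / (n + 1) ^ 2 * R n x := by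
  induction n with
  | zero => simp [v, R]; ring
  | succ n ih =>
    rw [v_succ, ih, R_succ]
    have h1 : (n : ℚ) + 1 ≠ 0 := by positivity
    have h2 : (n : ℚ) + 1 + 1 ≠ 0 := by positivity
    push_cast
    field_simp
    ring

theorem v_eq' (n : ℕ) (x : ℚ) : v (n + 1) (x - 1) = (x - 1) * (n - x) / (n + 1) ^ 2 * R n x := by
  induction n with
  | zero => simp [v, R]; ring
  | succ n ih =>
    rw [v_succ, ih, R_succ]
    have h1 : (n : ℚ) + 1 ≠ 0 := by positivity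
    have h2 : (n : ℚ) + 1 + 1 ≠ 0 := by positivity
    push_cast
    field_simp
    ring

theorem V_rec (n : ℕ) (x : ℚ) :
    (x + 1) * V (n + 1) x + (x - 1) * V (n + 1) (x - 1) = 2 * x * R n x := by
  induction n with
  | zero => simp [V, v, R]; ring
  | succ n ih =>
    have e1 : V (n + 1 + 1) x = V (n + 1) x + v (n + 1) x := by
      unfold V; rw [sum_range_succ]
    have e2 : V (n + 1 + 1) (x - 1) = V (n + 1) (x - 1) + v (n + 1) (x - 1) := by
      unfold V; rw [sum_range_succ]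
    rw [e1, e2]
    have e3 : (x + 1) * (V (n + 1) x + v (n + 1) x) + (x - 1) * (V (n + 1) (x - 1) +
        v (n + 1) (x - 1)) = ((x + 1) * V (n + 1) x + (x - 1) * V (n + 1) (x - 1)) +
        ((x + 1) * v (n + 1) x + (x - 1) * v (n + 1) (x - 1)) := by ring
    rw [e3, ih, v_eq, v_eq', R_succ]
    have h1 : (n : ℚ) + 1 ≠ 0 := by positivity
    field_simp
    ring

theorem v_u (k : ℕ) (x : ℚ) : v (k + 1) x = -(x * (x + 1)) * (u k x / (k + 1) ^ 2) := by
  induction k with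
  | zero => simp [v, u]; ring
  | succ n ih =>
    rw [v_succ, ih, u_succ]
    have h1 : (n : ℚ) + 1 ≠ 0 := by positivity
    have h2 : (n : ℚ) + 1 + 1 ≠ 0 := by positivity
    push_cast
    field_simp
    ring

theorem sum_a_sq (n : ℕ) : ∑ k ∈ range n, a k / (k + 1) ^ 2 = 9 / 2 * (V (n + 1) (-1 / 3) - 1) := by
  unfold V
  rw [sum_range_succ']
  have : v 0 (-1 / 3) = 1 := by simp [v]
  rw [this, add_sub_cancel_right, mul_sum]
  refine sum_congr rfl fun k _ => ?_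
  rw [v_u, a_u]
  ring

section Padic

variable {p : ℕ} [hp : Fact p.Prime]

theorem v_mem {x : ℚ} (hx : x ∈ Zp p) (j : ℕ) (hj : j < p) : v j x ∈ Zp p := by
  unfold v
  refine prod_mem fun i hi => ?_
  rw [mem_range] at hi
  rw [div_eq_mul_inv, ← inv_pow]
  exact mul_mem (mul_mem (sub_mem (sub_mem (mem_nat i) (one_mem _)) hx) (add_mem (mem_nat i) hx))
    (pow_mem (inv_succ_mem (by omega)) 2)

theorem V_mem {x : ℚ} (hx : x ∈ Zp p) : V p x ∈ Zp p := by
  unfold V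
  exact sum_mem fun j hj => v_mem hx j (mem_range.1 hj)

theorem R_mem (t : ℚ) (ht : t ∈ Zp p) (s : ℕ) (h2 : s + 1 < p) :
    M p 1 (R (p - 1) (p * t + s)) := by
  set x : ℚ := p * t + s with hx
  have hxm : x ∈ Zp p := add_mem (mul_mem (mem_nat p) ht) (mem_nat s)
  unfold R
  refine M_prod _ _ (fun i hi => ?_) s (by rw [mem_range]; omega) ?_
  · rw [mem_range] at hi
    rw [div_eq_mul_inv, ← inv_pow]
    exact mul_mem (mul_mem (sub_mem (mem_nat i) hxm) (add_mem (mem_nat i) hxm))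
      (pow_mem (inv_succ_mem (by omega)) 2)
  · rw [div_eq_mul_inv, ← inv_pow]
    refine ⟨-t * (s + x) * (((s : ℚ) + 1)⁻¹) ^ 2, mul_mem (mul_mem (neg_mem ht)
      (add_mem (mem_nat s) hxm)) (pow_mem (inv_succ_mem h2) 2), ?_⟩
    rw [hx]
    ring

theorem V_M (t : ℚ) (ht : t ∈ Zp p) (s : ℕ) (h1 : 1 ≤ s) (h2 : s + 1 < p) :
    M p 1 (V p (p * t + s)) := by
  have hp1 : p - 1 + 1 = p := Nat.sub_add_cancel hp.out.one_lt.le
  induction s with
  | zero => omega
  | succ s ih =>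
    set x : ℚ := p * t + (s + 1 : ℕ) with hx
    have hxm : x ∈ Zp p := add_mem (mul_mem (mem_nat p) ht) (mem_nat _)
    have e : x - 1 = p * t + s := by rw [hx]; push_cast; ring
    have h := V_rec (p - 1) x
    rw [hp1, e] at h
    have hR := R_mem t ht (s + 1) h2
    -- `(x-1) V(x-1)` is divisible by `p`
    have hb : M p 1 ((p * t + s) * V p (p * t + s)) := by
      rcases Nat.eq_zero_or_pos s with h0 | h0
      · subst h0
        have : V p (p * t + (0 : ℕ)) ∈ Zp p := V_mem (add_mem (mul_mem (mem_nat p) ht) (mem_nat 0))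
        exact ⟨t * V p (p * t + (0 : ℕ)), mul_mem ht this, by push_cast; ring⟩
      · exact M_smul (add_mem (mul_mem (mem_nat p) ht) (mem_nat s)) (ih h0 (by omega))
    have hc : M p 1 ((x + 1) * V p x) := by
      have e2 : (x + 1) * V p x = 2 * x * R (p - 1) x - (p * t + s) * V p (p * t + s) := by
        rw [← h]; ring
      rw [e2]
      exact M_sub (M_smul (mul_mem (by exact_mod_cast mem_nat 2) hxm) hR) hb
    have hd : M p 1 ((p : ℚ) * (t * V p x)) := ⟨t * V p x, mul_mem ht (V_mem hxm), by ring⟩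
    have e3 : V p x = ((s + 2 : ℕ) : ℚ)⁻¹ * ((x + 1) * V p x - p * (t * V p x)) := by
      have : ((s + 2 : ℕ) : ℚ) ≠ 0 := by positivity
      rw [hx]
      field_simp
      push_cast
      ring
    rw [e3]
    exact M_smul (inv_mem (not_dvd_of_lt (by omega) h2)) (M_sub hc hd)

/-- `a p ≡ 2/9 (mod p)` -/
theorem a_p (h3 : 3 < p) : M p 1 (a p - 2 / 9) := by
  have h27 : ¬ p ∣ 27 ^ p := by
    intro h
    have h1 := hp.out.dvd_of_dvd_pow h
    rw [show 27 = 3 ^ 3 by norm_num] at h1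
    have h2 := (Nat.prime_dvd_prime_iff_eq hp.out Nat.prime_three).1 (hp.out.dvd_of_dvd_pow h1)
    omega
  have h9 : ¬ p ∣ 9 := by
    intro h
    rw [show 9 = 3 ^ 2 by norm_num] at h
    have h2 := (Nat.prime_dvd_prime_iff_eq hp.out Nat.prime_three).1 (hp.out.dvd_of_dvd_pow h)
    omega
  have hA : (((2 * p).choose p : ℤ) : ZMod p) = 2 := by
    have h := Choose.choose_modEq_choose_mod_mul_choose_div (p := p) (n := 2 * p) (k := p)
    have h' := (ZMod.intCast_eq_intCast_iff _ _ p).2 h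
    rw [h']
    have e1 : 2 * p / p = 2 := by
      rw [Nat.mul_div_cancel _ hp.out.pos]
    have e2 : 2 * p % p = 0 := by simp
    rw [e1, e2, Nat.mod_self, Nat.div_self hp.out.pos]
    norm_num
  have hB : (((3 * p).choose p : ℤ) : ZMod p) = 3 := by
    have h := Choose.choose_modEq_choose_mod_mul_choose_div (p := p) (n := 3 * p) (k := p)
    have h' := (ZMod.intCast_eq_intCast_iff _ _ p).2 h
    rw [h']
    have e1 : 3 * p / p = 3 := by
      rw [Nat.mul_div_cancel _ hp.out.pos]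
    have e2 : 3 * p % p = 0 := by simp
    rw [e1, e2, Nat.mod_self, Nat.div_self hp.out.pos]
    norm_num
  have hC : (p : ℤ) ∣ 9 * ((2 * p).choose p : ℤ) * ((3 * p).choose p : ℤ) - 2 * 27 ^ p := by
    rw [← ZMod.intCast_zmod_eq_zero_iff_dvd]
    push_cast
    push_cast at hA hB
    rw [hA, hB, ZMod.pow_card]
    ring
  obtain ⟨c, hc⟩ := hC
  have hc' : (9 : ℚ) * ((2 * p).choose p : ℚ) * ((3 * p).choose p : ℚ) - 2 * 27 ^ p = p * c := by
    exact_mod_cast hc
  have i1 := inv_mem h27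
  have i2 := inv_mem h9
  push_cast at i1 i2
  refine ⟨c * ((9 : ℚ)⁻¹ * (27 ^ p)⁻¹), mul_mem (mem_int c) (mul_mem i2 i1), ?_⟩
  have : (27 : ℚ) ^ p ≠ 0 := by positivity
  rw [← mul_assoc, pow_one, ← hc']
  unfold a
  field_simp

theorem main1 (h3 : 3 < p) (t : ℚ) (ht : t ∈ Zp p) (r : ℕ) (hr : r < p)
    (hx : (-1 / 3 : ℚ) = p * t + r) :
    M p 2 (∑ k ∈ range p, a k / ((k + 1) * (2 * k + 1)) - (6 * (1 + 2 * t) - p)) := by
  have h1 := T_main h3 t ht r hr
  rw [← hx] at h1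
  have hT : T p (-1 / 3) = 1 / 3 * ∑ k ∈ range p, a k / (2 * k + 1) := by
    unfold T
    rw [mul_sum, mul_sum]
    refine sum_congr rfl fun k _ => ?_
    rw [a_u]
    ring
  have hsplit : ∑ k ∈ range p, a k / ((k + 1) * (2 * k + 1)) =
      2 * ∑ k ∈ range p, a k / (2 * k + 1) - ∑ k ∈ range p, a k / (k + 1) := by
    rw [mul_sum, ← sum_sub_distrib]
    refine sum_congr rfl fun k _ => ?_
    have q1 : (k : ℚ) + 1 ≠ 0 := by positivity
    have q2 : 2 * (k : ℚ) + 1 ≠ 0 := by positivity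
    field_simp
    ring
  rw [sum_a_div] at hsplit
  obtain ⟨y, hy, hy'⟩ := a_p h3
  obtain ⟨z, hz, hz'⟩ := h1
  rw [hT] at hz'
  have ea : a p = 2 / 9 + p * y := by linarith [hy', pow_one (p : ℚ)]
  have es : ∑ k ∈ range p, a k / (2 * k + 1) = 3 * (1 + 2 * t) + 3 * ((p : ℚ) ^ 2 * z) := by
    linarith
  have i2 : ((2 : ℕ) : ℚ)⁻¹ ∈ Zp p := inv_mem (not_dvd_of_lt (by omega) (by omega))
  refine ⟨6 * z - 9 * (((2 : ℕ) : ℚ)⁻¹ * y), sub_mem (mul_mem (by exact_mod_cast mem_nat 6) hz)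
    (mul_mem (by exact_mod_cast mem_nat 9) (mul_mem i2 hy)), ?_⟩
  rw [hsplit, ea, es]
  push_cast
  ring

theorem main2 (h3 : 3 < p) (t : ℚ) (ht : t ∈ Zp p) (r : ℕ) (hr0 : 1 ≤ r) (hr : r + 1 < p)
    (hx : (-1 / 3 : ℚ) = p * t + r) :
    M p 1 (∑ k ∈ range p, 2 * a k / (k + 1) ^ 2 + 7) := by
  have h1 := V_M t ht r hr0 hr
  rw [← hx] at h1
  obtain ⟨y, hy, hy'⟩ := a_p h3
  have ea : a p = 2 / 9 + p * y := by linarith [hy', pow_one (p : ℚ)]
  have hp1 : p - 1 + 1 = p := Nat.sub_add_cancel hp.out.one_lt.le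
  have hv : v p (-1 / 3) = 2 * a p / ((3 * p - 2) * (3 * p - 1)) := by
    have e1 := v_u (p - 1) (-1 / 3)
    have e2 := u_succ (p - 1) (-1 / 3)
    rw [hp1] at e1 e2
    have e3 : ((p - 1 : ℕ) : ℚ) = p - 1 := by
      rw [Nat.cast_sub hp.out.one_lt.le]; simp
    rw [e3] at e1 e2
    rw [e1, a_u, e2]
    have hpq : (3 : ℚ) < p := by exact_mod_cast h3
    have q1 : (3 * (p : ℚ) - 2) ≠ 0 := by linarith
    have q2 : (3 * (p : ℚ) - 1) ≠ 0 := by linarith
    have q3 : (p : ℚ) ≠ 0 := by linarith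
    have q4 : (p : ℚ) - 1 + 1 ≠ 0 := by simpa using q3
    rw [show (p : ℚ) - 1 + 1 = p by ring]
    field_simp
    ring
  have n1 : ¬ p ∣ 3 * p - 2 := by
    intro h
    have h' : p ∣ 3 * p := Dvd.intro_left 3 rfl
    have h2 : p ∣ 3 * p - (3 * p - 2) := Nat.dvd_sub h' h
    rw [show 3 * p - (3 * p - 2) = 2 by omega] at h2
    exact not_dvd_of_lt (by omega) (by omega) h2
  have n2 : ¬ p ∣ 3 * p - 1 := by
    intro h
    have h' : p ∣ 3 * p := Dvd.intro_left 3 rfl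
    have h2 : p ∣ 3 * p - (3 * p - 1) := Nat.dvd_sub h' h
    rw [show 3 * p - (3 * p - 1) = 1 by omega] at h2
    exact not_dvd_of_lt (by omega) (by omega) h2
  have i1 := inv_mem n1
  have i2 := inv_mem n2
  rw [Nat.cast_sub (by omega)] at i1 i2
  push_cast at i1 i2
  have hvM : M p 1 (v p (-1 / 3) - 2 / 9) := by
    refine ⟨2 * (y - p + 1) * ((3 * (p : ℚ) - 2)⁻¹ * (3 * (p : ℚ) - 1)⁻¹), ?_, ?_⟩
    · exact mul_mem (mul_mem (by exact_mod_cast mem_nat 2) (add_mem (sub_mem hy (mem_nat p))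
        (one_mem _))) (mul_mem i1 i2)
    · rw [hv, ea]
      have hpq : (3 : ℚ) < p := by exact_mod_cast h3
      have q1 : (3 * (p : ℚ) - 2) ≠ 0 := by linarith
      have q2 : (3 * (p : ℚ) - 1) ≠ 0 := by linarith
      have hI : ((3 * (p : ℚ) - 2) * (3 * (p : ℚ) - 1)) *
          ((3 * (p : ℚ) - 2) * (3 * (p : ℚ) - 1))⁻¹ = 1 := mul_inv_cancel₀ (mul_ne_zero q1 q2)
      rw [← mul_inv, div_eq_mul_inv]
      linear_combination (2 / 9) * hI
  have e : ∑ k ∈ range p, 2 * a k / (k + 1) ^ 2 + 7 =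
      9 * V p (-1 / 3) + 9 * (v p (-1 / 3) - 2 / 9) := by
    have e0 : ∑ k ∈ range p, 2 * a k / (k + 1) ^ 2 = 2 * ∑ k ∈ range p, a k / (k + 1) ^ 2 := by
      rw [mul_sum]
      exact sum_congr rfl fun k _ => by ring
    rw [e0, sum_a_sq]
    have : V (p + 1) (-1 / 3) = V p (-1 / 3) + v p (-1 / 3) := by
      unfold V; rw [sum_range_succ]
    rw [this]
    ring
  rw [e]
  exact M_add (M_smul (by exact_mod_cast mem_nat 9) h1) (M_smul (by exact_mod_cast mem_nat 9) hvM)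

end Padic

end Pool.Agent.K3h3.Cat
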