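import Pool.Agent.K3h3.Cat3

set_option autoImplicit false

open Finset

namespace Pool.Agent.K3h3.Cat

section Padic

variable {p : ℕ} [hp : Fact p.Prime]

theorem prod_one_add (c : ℚ) (hc : c ∈ Zp p) (n : ℕ) (hn : n < p) :
    M p 2 (∏ j ∈ range n, (1 + p * c / ((j : ℚ) + 1)) -
      (1 + p * c * ∑ j ∈ range n, (1 : ℚ) / (j + 1))) := by
  induction n with
  | zero => exact ⟨0, zero_mem _, by simp⟩
  | succ n ih =>
    obtain ⟨y, hy, hy'⟩ := ih (by omega)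
    rw [prod_range_succ, sum_range_succ]
    set S : ℚ := ∑ j ∈ range n, (1 : ℚ) / (j + 1) with hS
    have hSm : S ∈ Zp p := by
      refine sum_mem fun j hj => ?_
      rw [mem_range] at hj
      rw [one_div]
      exact inv_succ_mem (by omega)
    have e : ∏ j ∈ range n, (1 + p * c / ((j : ℚ) + 1)) = 1 + p * c * S + (p : ℚ) ^ 2 * y := by
      linarith
    have h1 : ((n : ℚ) + 1)⁻¹ ∈ Zp p := inv_succ_mem hn
    refine ⟨y + c * S * (c * ((n : ℚ) + 1)⁻¹) + p * y * (c * ((n : ℚ) + 1)⁻¹), ?_, ?_⟩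
    · exact add_mem (add_mem hy (mul_mem (mul_mem hc hSm) (mul_mem hc h1)))
        (mul_mem (mul_mem (mem_nat p) hy) (mul_mem hc h1))
    · rw [e]
      have : (n : ℚ) + 1 ≠ 0 := by positivity
      field_simp
      ring

theorem prod_harm (h3 : 3 < p) (c : ℚ) (hc : c ∈ Zp p) :
    M p 2 (∏ j ∈ range (p - 1), (1 + p * c / ((j : ℚ) + 1)) - 1) := by
  have hpp := hp.out.one_lt
  obtain ⟨y, hy, hy'⟩ := prod_one_add c hc (p - 1) (by omega)
  obtain ⟨z, hz, hz'⟩ := harm (p := p) h3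
  refine ⟨y + c * z, add_mem hy (mul_mem hc hz), ?_⟩
  rw [hz'] at hy'
  linear_combination hy'

omit hp in
theorem choose_prod (m n : ℕ) :
    ((m + n).choose n : ℚ) = ∏ j ∈ range n, (1 + (m : ℚ) / ((j : ℚ) + 1)) := by
  induction n with
  | zero => simp
  | succ n ih =>
    rw [prod_range_succ, ← ih]
    have h := Nat.add_one_mul_choose_eq (m + n) n
    have h' : ((m : ℚ) + n + 1) * ((m + n).choose n : ℚ) =
        ((m + (n + 1)).choose (n + 1) : ℚ) * (n + 1) := by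
      rw [← add_assoc]
      exact_mod_cast h
    have : (n : ℚ) + 1 ≠ 0 := by positivity
    field_simp
    linear_combination -h'

/-- `binom(m p + p, p) ≡ m + 1 (mod p²)`, times `m + 1` -/
theorem choose_mod (h3 : 3 < p) (m : ℕ) :
    M p 2 (((m * p + p).choose p : ℚ) - (m + 1)) := by
  have hpp := hp.out.one_lt
  have hp0 : (p : ℚ) ≠ 0 := by exact_mod_cast hp.out.ne_zero
  rw [choose_prod]
  obtain ⟨n, rfl⟩ : ∃ n, p = n + 1 := ⟨p - 1, by omega⟩
  rw [prod_range_succ]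
  have h := prod_harm (p := n + 1) h3 m (mem_nat m)
  obtain ⟨y, hy, hy'⟩ := h
  simp only [Nat.add_sub_cancel] at hy'
  refine ⟨(m + 1) * y, mul_mem (add_mem (mem_nat m) (one_mem _)) hy, ?_⟩
  have e : ∏ j ∈ range n, (1 + ((m * (n + 1) : ℕ) : ℚ) / ((j : ℚ) + 1)) =
      ∏ j ∈ range n, (1 + ((n + 1 : ℕ) : ℚ) * m / ((j : ℚ) + 1)) := by
    refine prod_congr rfl fun j _ => ?_
    push_cast
    ring
  rw [e]
  have e2 : (1 : ℚ) + ((m * (n + 1) : ℕ) : ℚ) / ((n : ℚ) + 1) = m + 1 := by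
    push_cast
    have : (n : ℚ) + 1 ≠ 0 := by positivity
    field_simp
    ring
  rw [e2]
  linear_combination (m + 1) * hy'

theorem a_p_sq (h3 : 3 < p) : M p 2 (a p * 27 ^ p - 6) := by
  obtain ⟨y, hy, hy'⟩ := choose_mod (p := p) h3 1
  obtain ⟨z, hz, hz'⟩ := choose_mod (p := p) h3 2
  have e : a p * 27 ^ p = ((1 * p + p).choose p : ℚ) * ((2 * p + p).choose p : ℚ) := by
    unfold a
    rw [show 1 * p + p = 2 * p by ring, show 2 * p + p = 3 * p by ring]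
    have : (27 : ℚ) ^ p ≠ 0 := by positivity
    field_simp
  push_cast at hy' hz'
  have ey : ((1 * p + p).choose p : ℚ) = 2 + (p : ℚ) ^ 2 * y := by linarith
  have ez : ((2 * p + p).choose p : ℚ) = 3 + (p : ℚ) ^ 2 * z := by linarith
  refine ⟨3 * y + 2 * z + (p : ℚ) ^ 2 * y * z, ?_, ?_⟩
  · exact add_mem (add_mem (mul_mem (by exact_mod_cast mem_nat 3) hy)
      (mul_mem (by exact_mod_cast mem_nat 2) hz)) (mul_mem (mul_mem (pow_mem (mem_nat p) 2) hy) hz)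
  · rw [e, ey, ez]
    ring

theorem R_two (t : ℚ) (ht : t ∈ Zp p) (s : ℕ) (h1 : 2 ≤ s) (h2 : s + 1 < p) :
    M p 2 (R (p - 1) (p * t + s)) := by
  set x : ℚ := p * t + s with hx
  have hxm : x ∈ Zp p := add_mem (mul_mem (mem_nat p) ht) (mem_nat s)
  have hfac : R (p - 1) x = (∏ j ∈ range (p - 1), ((j : ℚ) - x) * ((j : ℚ) + 1)⁻¹) *
      (∏ j ∈ range (p - 1), ((j : ℚ) + x) * ((j : ℚ) + 1)⁻¹) := by
    unfold R
    rw [← prod_mul_distrib]
    refine prod_congr rfl fun j _ => ?_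
    have : (j : ℚ) + 1 ≠ 0 := by positivity
    field_simp
  rw [hfac]
  refine M_mul (m := 1) (n := 1) ?_ ?_
  · refine M_prod _ _ (fun j hj' => ?_) s (by rw [mem_range]; omega) ?_
    · rw [mem_range] at hj'
      exact mul_mem (sub_mem (mem_nat j) hxm) (inv_succ_mem (by omega))
    · exact ⟨-t * ((s : ℚ) + 1)⁻¹, mul_mem (neg_mem ht) (inv_succ_mem h2), by rw [hx]; ring⟩
  · refine M_prod _ _ (fun j hj' => ?_) (p - s) (by rw [mem_range]; omega) ?_
    · rw [mem_range] at hj'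
      exact mul_mem (add_mem (mem_nat j) hxm) (inv_succ_mem (by omega))
    · have hps : ((p - s : ℕ) : ℚ) = p - s := by
        rw [Nat.cast_sub (by omega)]
      refine ⟨(1 + t) * (((p - s : ℕ) : ℚ) + 1)⁻¹, mul_mem (add_mem (one_mem _) ht)
        (inv_succ_mem (by omega)), ?_⟩
      rw [hx, hps]
      ring

theorem Q_mod (t : ℚ) (ht : t ∈ Zp p) (n : ℕ) (h1 : 2 ≤ n) (h2 : n < p) :
    M p 2 (∏ j ∈ range n, (((j : ℚ) - (p * t + 1)) * ((j : ℚ) + 1)⁻¹) -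
      p * t * ((n : ℚ) * (n - 1))⁻¹) := by
  induction n, h1 using Nat.le_induction with
  | base =>
    have h3 : ¬ p ∣ 2 := not_dvd_of_lt (by omega) h2
    have i2 := inv_mem (p := p) h3
    push_cast at i2
    refine ⟨t ^ 2 * (2 : ℚ)⁻¹, mul_mem (pow_mem ht 2) i2, ?_⟩
    simp [prod_range_succ]
    ring
  | succ n hn ih =>
    obtain ⟨y, hy, hy'⟩ := ih (by omega)
    rw [prod_range_succ]
    have hn0 : (n : ℚ) ≠ 0 := by
      have : 0 < n := by omega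
      positivity
    have hn1 : ((n - 1 : ℕ) : ℚ) = n - 1 := by
      rw [Nat.cast_sub (by omega)]; simp
    have hn1' : (n : ℚ) - 1 ≠ 0 := by
      rw [← hn1]
      have : 0 < n - 1 := by omega
      positivity
    have hn2 : (n : ℚ) + 1 ≠ 0 := by positivity
    have i0 := inv_mem (p := p) (n := n) (not_dvd_of_lt (by omega) (by omega))
    have i1 := inv_mem (p := p) (n := n - 1) (not_dvd_of_lt (by omega) (by omega))
    rw [hn1] at i1
    have i2 : ((n : ℚ) + 1)⁻¹ ∈ Zp p := inv_succ_mem h2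
    have e : ∏ j ∈ range n, (((j : ℚ) - (p * t + 1)) * ((j : ℚ) + 1)⁻¹) =
        p * t * ((n : ℚ) * (n - 1))⁻¹ + (p : ℚ) ^ 2 * y := by linarith
    refine ⟨(y * (n - (p * t + 1)) - t ^ 2 * ((n : ℚ)⁻¹ * ((n : ℚ) - 1)⁻¹)) * ((n : ℚ) + 1)⁻¹,
      ?_, ?_⟩
    · exact mul_mem (sub_mem (mul_mem hy (sub_mem (mem_nat n) (add_mem (mul_mem (mem_nat p) ht)
        (one_mem _)))) (mul_mem (pow_mem ht 2) (mul_mem i0 i1))) i2
    · rw [e]
      push_cast
      rw [show (n : ℚ) + 1 - 1 = n by ring]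
      field_simp
      ring

theorem R_one (h3 : 3 < p) (t : ℚ) (ht : t ∈ Zp p) :
    M p 2 (R (p - 1) (p * t + 1) - p * t * (2 : ℚ)⁻¹) := by
  have hpp := hp.out.one_lt
  have hfac : R (p - 1) (p * t + 1) =
      (∏ j ∈ range (p - 1), (((j : ℚ) - (p * t + 1)) * ((j : ℚ) + 1)⁻¹)) *
      (∏ j ∈ range (p - 1), (1 + p * t / ((j : ℚ) + 1))) := by
    unfold R
    rw [← prod_mul_distrib]
    refine prod_congr rfl fun j _ => ?_
    have : (j : ℚ) + 1 ≠ 0 := by positivity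
    field_simp
    ring
  obtain ⟨y, hy, hy'⟩ := Q_mod t ht (p - 1) (by omega) (by omega)
  obtain ⟨z, hz, hz'⟩ := prod_harm h3 t ht
  have hp1 : ((p - 1 : ℕ) : ℚ) = p - 1 := by
    rw [Nat.cast_sub (by omega)]; simp
  have hp2 : ((p - 2 : ℕ) : ℚ) = p - 2 := by
    rw [Nat.cast_sub (by omega)]; simp
  have i1 := inv_mem (p := p) (n := p - 1) (not_dvd_of_lt (by omega) (by omega))
  have i2 := inv_mem (p := p) (n := p - 2) (not_dvd_of_lt (by omega) (by omega))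
  have i3 := inv_mem (p := p) (n := 2) (not_dvd_of_lt (by omega) (by omega))
  rw [hp1] at i1
  rw [hp2] at i2
  push_cast at i3
  have n1 : (p : ℚ) - 1 ≠ 0 := by
    rw [← hp1]
    have : 0 < p - 1 := by omega
    positivity
  have n2 : (p : ℚ) - 2 ≠ 0 := by
    rw [← hp2]
    have : 0 < p - 2 := by omega
    positivity
  rw [hp1, show (p : ℚ) - 1 - 1 = p - 2 by ring] at hy'
  have e1 : ∏ j ∈ range (p - 1), (((j : ℚ) - (p * t + 1)) * ((j : ℚ) + 1)⁻¹) =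
      p * t * (((p : ℚ) - 1) * (p - 2))⁻¹ + (p : ℚ) ^ 2 * y := by linarith
  have e2 : ∏ j ∈ range (p - 1), (1 + p * t / ((j : ℚ) + 1)) = 1 + (p : ℚ) ^ 2 * z := by linarith
  refine ⟨y * (1 + (p : ℚ) ^ 2 * z) + p * t * z * (((p : ℚ) - 1)⁻¹ * ((p : ℚ) - 2)⁻¹) +
    t * (3 - p) * (2 : ℚ)⁻¹ * (((p : ℚ) - 1)⁻¹ * ((p : ℚ) - 2)⁻¹), ?_, ?_⟩
  · refine add_mem (add_mem (mul_mem hy (add_mem (one_mem _) (mul_mem (pow_mem (mem_nat p) 2) hz)))
      (mul_mem (mul_mem (mul_mem (mem_nat p) ht) hz) (mul_mem i1 i2))) ?_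
    exact mul_mem (mul_mem (mul_mem ht (sub_mem (by exact_mod_cast mem_nat 3) (mem_nat p))) i3)
      (mul_mem i1 i2)
  · rw [hfac, e1, e2]
    field_simp
    ring

theorem V_pt (t : ℚ) (ht : t ∈ Zp p) : M p 1 (V p (p * t) - 1) := by
  have hpp := hp.out.one_lt
  obtain ⟨n, hn⟩ : ∃ n, p = n + 1 := ⟨p - 1, by omega⟩
  have e : V p (p * t) - 1 = ∑ j ∈ range n, v (j + 1) (p * t) := by
    unfold V
    conv_lhs => rw [show range p = range (n + 1) by rw [hn]]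
    rw [sum_range_succ']
    have : v 0 (p * t) = 1 := by simp [v]
    rw [this]
    ring
  rw [e]
  refine M_sum _ _ fun j hj => ?_
  rw [mem_range] at hj
  have hxm : (p : ℚ) * t ∈ Zp p := mul_mem (mem_nat p) ht
  unfold v
  refine M_prod _ _ (fun i hi => ?_) 0 (by simp) ?_
  · rw [mem_range] at hi
    rw [div_eq_mul_inv, ← inv_pow]
    exact mul_mem (mul_mem (sub_mem (sub_mem (mem_nat i) (one_mem _)) hxm) (add_mem (mem_nat i) hxm))
      (pow_mem (inv_succ_mem (by omega)) 2)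
  · refine ⟨-(1 + p * t) * t, mul_mem (neg_mem (add_mem (one_mem _) hxm)) ht, ?_⟩
    push_cast
    ring

/-- `V p x` vanishes modulo `p²` if `x` is not `0` or `-1` modulo `p`. -/
theorem V_M2 (h3 : 3 < p) (t : ℚ) (ht : t ∈ Zp p) (s : ℕ) (h1 : 1 ≤ s) (h2 : s + 1 < p) :
    M p 2 (V p (p * t + s)) := by
  have hp1 : p - 1 + 1 = p := Nat.sub_add_cancel hp.out.one_lt.le
  -- it is enough to show the claim for `(x + 1) V x`
  have red : ∀ s : ℕ, 1 ≤ s → s + 1 < p → M p 2 ((p * t + s + 1) * V p (p * t + s)) →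
      M p 2 (V p (p * t + s)) := by
    intro s hs1 hs2 hc
    have hd : M p 2 ((p : ℚ) * (t * V p (p * t + s))) := by
      have := M_mul (M_p (p := p)) (M_smul ht (V_M t ht s hs1 hs2))
      simpa using this
    have e3 : V p (p * t + s) = ((s + 1 : ℕ) : ℚ)⁻¹ *
        ((p * t + s + 1) * V p (p * t + s) - p * (t * V p (p * t + s))) := by
      have : ((s + 1 : ℕ) : ℚ) ≠ 0 := by positivity
      field_simp
      push_cast
      ring
    rw [e3]
    exact M_smul (inv_mem (not_dvd_of_lt (by omega) hs2)) (M_sub hc hd)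
  induction s, h1 using Nat.le_induction with
  | base =>
    refine red 1 le_rfl h2 ?_
    have h := V_rec (p - 1) (p * t + 1)
    rw [hp1] at h
    obtain ⟨y, hy, hy'⟩ := R_one h3 t ht
    obtain ⟨z, hz, hz'⟩ := V_pt t ht
    have e : (p : ℚ) * t + 1 - 1 = p * t := by ring
    rw [e] at h
    have eR : R (p - 1) (p * t + 1) = p * t * (2 : ℚ)⁻¹ + (p : ℚ) ^ 2 * y := by linarith
    have eV : V p (p * t) = 1 + p * z := by linarith [pow_one (p : ℚ)]
    refine ⟨t ^ 2 + 2 * (p * t + 1) * y - t * z, ?_, ?_⟩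
    · refine sub_mem (add_mem (pow_mem ht 2) (mul_mem (mul_mem (by exact_mod_cast mem_nat 2)
        (add_mem (mul_mem (mem_nat p) ht) (one_mem _))) hy)) (mul_mem ht hz)
    · rw [eR, eV] at h
      push_cast
      linear_combination h
  | succ s hs ih =>
    refine red (s + 1) (by omega) h2 ?_
    have h := V_rec (p - 1) (p * t + (s + 1 : ℕ))
    rw [hp1] at h
    have e : (p : ℚ) * t + (s + 1 : ℕ) - 1 = p * t + s := by push_cast; ring
    rw [e] at h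
    have hxm : (p : ℚ) * t + (s + 1 : ℕ) ∈ Zp p := add_mem (mul_mem (mem_nat p) ht) (mem_nat _)
    have hR := R_two t ht (s + 1) (by omega) h2
    have e2 : (p * t + (s + 1 : ℕ) + 1) * V p (p * t + (s + 1 : ℕ)) =
        2 * (p * t + (s + 1 : ℕ)) * R (p - 1) (p * t + (s + 1 : ℕ)) -
          (p * t + s) * V p (p * t + s) := by
      linear_combination h
    rw [e2]
    exact M_sub (M_smul (mul_mem (by exact_mod_cast mem_nat 2) hxm) hR)
      (M_smul (add_mem (mul_mem (mem_nat p) ht) (mem_nat s)) (ih (by omega)))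

theorem fermat (h3 : 3 < p) : ∃ q ∈ Zp p, (3 : ℚ) ^ (p - 1) = 1 + p * q := by
  have hc : IsCoprime (3 : ℤ) (p : ℤ) := by
    rw [show (3 : ℤ) = ((3 : ℕ) : ℤ) by norm_num, Nat.isCoprime_iff_coprime]
    exact (Nat.coprime_primes Nat.prime_three hp.out).2 (by omega)
  have h := Int.ModEq.pow_card_sub_one_eq_one hp.out hc
  obtain ⟨c, hc'⟩ := (Int.modEq_iff_dvd.1 h.symm)
  refine ⟨c, mem_int c, ?_⟩
  have : (3 : ℤ) ^ (p - 1) = 1 + p * c := by linarith
  exact_mod_cast this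

/-- the last term -/
theorem last_term (h3 : 3 < p) :
    M p 2 (18 * a p / ((3 * p - 2) * (3 * p - 1)) - (8 + 9 * p - 6 * 3 ^ (p - 1))) := by
  have hpp := hp.out.one_lt
  obtain ⟨y, hy, hy'⟩ := a_p_sq (p := p) h3
  obtain ⟨q, hq, hq'⟩ := fermat (p := p) h3
  have h27 : (27 : ℚ) ^ p = 27 * (1 + p * q) ^ 3 := by
    obtain ⟨n, hn⟩ : ∃ n, p = n + 1 := ⟨p - 1, by omega⟩
    have : (27 : ℚ) ^ p = 27 * (3 ^ (p - 1)) ^ 3 := by
      rw [hn, Nat.add_sub_cancel, pow_succ, ← pow_mul, mul_comm n 3, pow_mul]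
      norm_num
      ring
    rw [this, hq']
  have n1 : ¬ p ∣ 3 * p - 2 := by
    intro h
    have h' : p ∣ 3 * p := Dvd.intro_left 3 rfl
    have h2 : p ∣ 3 * p - (3 * p - 2) := Nat.dvd_sub h' h
    rw [show 3 * p - (3 * p - 2) = 2 by omega] at h2
    exact not_dvd_of_lt (by omega) (by omega) h2
  have n2 : ¬ p ∣ 3 * p - 1 := by
    intro h
    have h' : p ∣ 3 * p := Dvd.intro_left 3 rfl
    have h2 : p ∣ 3 * p - (3 * p - 1) := Nat.dvd_sub h' h
    rw [show 3 * p - (3 * p - 1) = 1 by omega] at h2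
    exact not_dvd_of_lt (by omega) (by omega) h2
  have n3 : ¬ p ∣ 27 ^ p := by
    intro h
    have h1 := hp.out.dvd_of_dvd_pow h
    rw [show 27 = 3 ^ 3 by norm_num] at h1
    have h2 := (Nat.prime_dvd_prime_iff_eq hp.out Nat.prime_three).1 (hp.out.dvd_of_dvd_pow h1)
    omega
  have i1 := inv_mem n1
  have i2 := inv_mem n2
  have i3 := inv_mem n3
  rw [Nat.cast_sub (by omega)] at i1 i2
  push_cast at i1 i2 i3
  have hpq : (3 : ℚ) < p := by exact_mod_cast h3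
  have q1 : (3 * (p : ℚ) - 2) ≠ 0 := by linarith
  have q2 : (3 * (p : ℚ) - 1) ≠ 0 := by linarith
  have q3 : (27 : ℚ) ^ p ≠ 0 := by positivity
  have ea : a p = (6 + (p : ℚ) ^ 2 * y) * ((27 : ℚ) ^ p)⁻¹ := by
    field_simp
    linarith
  set W : ℚ := 18 * y + 27 * ((9 - 6 * q) ^ 2 + 27 * q * (2 + 9 * p - 6 * p * q) -
    (3 * q ^ 2 + p * q ^ 3) * (2 - 9 * p + 9 * (p : ℚ) ^ 2) * (2 + 9 * p - 6 * p * q) -
    9 * (1 + 3 * p * q) * (2 + 9 * p - 6 * p * q)) with hW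
  have hWm : W ∈ Zp p := by
    have m6 : (6 : ℚ) ∈ Zp p := by exact_mod_cast mem_nat 6
    have m9 : (9 : ℚ) ∈ Zp p := by exact_mod_cast mem_nat 9
    have m2 : (2 : ℚ) ∈ Zp p := by exact_mod_cast mem_nat 2
    have m3 : (3 : ℚ) ∈ Zp p := by exact_mod_cast mem_nat 3
    have m18 : (18 : ℚ) ∈ Zp p := by exact_mod_cast mem_nat 18
    have m27 : (27 : ℚ) ∈ Zp p := by exact_mod_cast mem_nat 27
    have mp : (p : ℚ) ∈ Zp p := mem_nat p
    have B : (2 + 9 * p - 6 * p * q : ℚ) ∈ Zp p :=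
      sub_mem (add_mem m2 (mul_mem m9 mp)) (mul_mem (mul_mem m6 mp) hq)
    refine add_mem (mul_mem m18 hy) (mul_mem m27 (sub_mem (sub_mem (add_mem (pow_mem
      (sub_mem m9 (mul_mem m6 hq)) 2) (mul_mem (mul_mem m27 hq) B)) (mul_mem (mul_mem
      (add_mem (mul_mem m3 (pow_mem hq 2)) (mul_mem mp (pow_mem hq 3)))
      (add_mem (sub_mem m2 (mul_mem m9 mp)) (mul_mem m9 (pow_mem mp 2)))) B))
      (mul_mem (mul_mem m9 (add_mem (one_mem _) (mul_mem (mul_mem m3 mp) hq))) B)))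
  refine ⟨W * (((27 : ℚ) ^ p)⁻¹ * ((3 * (p : ℚ) - 2)⁻¹ * (3 * (p : ℚ) - 1)⁻¹)),
    mul_mem hWm (mul_mem i3 (mul_mem i1 i2)), ?_⟩
  have hD : ((27 : ℚ) ^ p * ((3 * (p : ℚ) - 2) * (3 * p - 1))) *
      (((27 : ℚ) ^ p)⁻¹ * ((3 * (p : ℚ) - 2)⁻¹ * (3 * (p : ℚ) - 1)⁻¹)) = 1 := by
    rw [← mul_inv, ← mul_inv]
    exact mul_inv_cancel₀ (mul_ne_zero q3 (mul_ne_zero q1 q2))
  have hW' : 18 * (6 + (p : ℚ) ^ 2 * y) -
      (27 : ℚ) ^ p * ((3 * (p : ℚ) - 2) * (3 * p - 1)) * (2 + 9 * p - 6 * p * q) =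
      (p : ℚ) ^ 2 * W := by
    rw [h27, hW]
    ring
  rw [ea, hq', div_eq_mul_inv, mul_inv]
  generalize (3 * (p : ℚ) - 2)⁻¹ = J at *
  generalize (3 * (p : ℚ) - 1)⁻¹ = K at *
  generalize ((27 : ℚ) ^ p)⁻¹ = I at *
  linear_combination (I * (J * K)) * hW' + (2 + 9 * p - 6 * p * q) * hD

theorem main2_sq (h3 : 3 < p) (t : ℚ) (ht : t ∈ Zp p) (r : ℕ) (hr0 : 1 ≤ r) (hr : r + 1 < p)
    (hx : (-1 / 3 : ℚ) = p * t + r) :
    M p 2 (∑ k ∈ range p, 2 * a k / (k + 1) ^ 2 - (9 * p - 1 - 6 * 3 ^ (p - 1))) := by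
  have h1 := V_M2 h3 t ht r hr0 hr
  rw [← hx] at h1
  have hp1 : p - 1 + 1 = p := Nat.sub_add_cancel hp.out.one_lt.le
  have hv : v p (-1 / 3) = 2 * a p / ((3 * p - 2) * (3 * p - 1)) := by
    have e1 := v_u (p - 1) (-1 / 3)
    have e2 := u_succ (p - 1) (-1 / 3)
    rw [hp1] at e1 e2
    have e3 : ((p - 1 : ℕ) : ℚ) = p - 1 := by
      rw [Nat.cast_sub hp.out.one_lt.le]; simp
    rw [e3] at e1 e2
    rw [e1, a_u, e2]
    have hpq : (3 : ℚ) < p := by exact_mod_cast h3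
    have q1 : (3 * (p : ℚ) - 2) ≠ 0 := by linarith
    have q2 : (3 * (p : ℚ) - 1) ≠ 0 := by linarith
    have q3 : (p : ℚ) ≠ 0 := by linarith
    have q4 : (p : ℚ) - 1 + 1 ≠ 0 := by simpa using q3
    rw [show (p : ℚ) - 1 + 1 = p by ring]
    field_simp
    ring
  have e : ∑ k ∈ range p, 2 * a k / (k + 1) ^ 2 - (9 * p - 1 - 6 * 3 ^ (p - 1)) =
      9 * V p (-1 / 3) + (18 * a p / ((3 * p - 2) * (3 * p - 1)) -
        (8 + 9 * p - 6 * 3 ^ (p - 1))) := by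
    have e0 : ∑ k ∈ range p, 2 * a k / (k + 1) ^ 2 = 2 * ∑ k ∈ range p, a k / (k + 1) ^ 2 := by
      rw [mul_sum]
      exact sum_congr rfl fun k _ => by ring
    rw [e0, sum_a_sq]
    have : V (p + 1) (-1 / 3) = V p (-1 / 3) + v p (-1 / 3) := by
      unfold V; rw [sum_range_succ]
    rw [this, hv]
    ring
  rw [e]
  exact M_add (M_smul (by exact_mod_cast mem_nat 9) h1) (last_term h3)

end Padic

end Pool.Agent.K3h3.Cat
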