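import Mathlib

/-!
# Reachability probabilities in finite concurrent games (basic theory)

`k x a b` is the probability that the joint action `(a,b)` is chosen at the state `x`.
`rch next k T s` is the supremum of the `n`-step probabilities of hitting `T` from `s`.
-/

set_option autoImplicit false

namespace Pool.Agent.K3h3.Reach

open Filter Topology

variable {S A B : Type} [Fintype A] [Fintype B]

/-- one step of the value iteration for the target `T` -/
noncomputable def op (next : S → A → B → S) (k : S → A → B → ℝ) (T : Set S) (v : S → ℝ) :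
    S → ℝ :=
  T.indicator (fun _ => (1 : ℝ)) +
    Tᶜ.indicator (fun x => ∑ a, ∑ b, k x a b * v (next x a b))

/-- the probability of hitting `T` within `n` steps -/
noncomputable def itn (next : S → A → B → S) (k : S → A → B → ℝ) (T : Set S) (n : ℕ) : S → ℝ :=
  (op next k T)^[n] (T.indicator (fun _ => (1 : ℝ)))

/-- the probability of hitting `T` -/
noncomputable def rch (next : S → A → B → S) (k : S → A → B → ℝ) (T : Set S) (s : S) : ℝ :=
  ⨆ n : ℕ, itn next k T n s

/-- joint transition weights -/
structure IsKer (k : S → A → B → ℝ) : Prop where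
  nonneg : ∀ x a b, 0 ≤ k x a b
  total : ∀ x, ∑ a, ∑ b, k x a b = 1

variable {next : S → A → B → S} {k : S → A → B → ℝ} {T : Set S}

lemma op_mem {v : S → ℝ} {x : S} (h : x ∈ T) : op next k T v x = 1 := by
  simp [op, h]

lemma op_not_mem {v : S → ℝ} {x : S} (h : x ∉ T) :
    op next k T v x = ∑ a, ∑ b, k x a b * v (next x a b) := by
  simp [op, h]

lemma itn_zero : itn next k T 0 = T.indicator (fun _ => (1 : ℝ)) := rfl

lemma itn_succ (n : ℕ) : itn next k T (n + 1) = op next k T (itn next k T n) := by
  unfold itn
  rw [Function.iterate_succ_apply']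

lemma op_mono (hk : IsKer k) {v w : S → ℝ} (h : ∀ x, v x ≤ w x) (x : S) :
    op next k T v x ≤ op next k T w x := by
  by_cases hx : x ∈ T
  · rw [op_mem hx, op_mem hx]
  · rw [op_not_mem hx, op_not_mem hx]
    exact Finset.sum_le_sum fun a _ => Finset.sum_le_sum fun b _ =>
      mul_le_mul_of_nonneg_left (h _) (hk.nonneg _ _ _)

lemma avg_const (hk : IsKer k) (x : S) (c : ℝ) : ∑ a, ∑ b, k x a b * c = c := by
  have : ∑ a, ∑ b, k x a b * c = (∑ a, ∑ b, k x a b) * c := by
    simp only [Finset.sum_mul]
  rw [this, hk.total, one_mul]

lemma itn_nonneg (hk : IsKer k) (n : ℕ) (x : S) : 0 ≤ itn next k T n x := by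
  induction n generalizing x with
  | zero => rw [itn_zero]; by_cases hx : x ∈ T <;> simp [hx]
  | succ n ih =>
    rw [itn_succ]
    by_cases hx : x ∈ T
    · rw [op_mem hx]; exact zero_le_one
    · rw [op_not_mem hx]
      exact Finset.sum_nonneg fun a _ => Finset.sum_nonneg fun b _ =>
        mul_nonneg (hk.nonneg _ _ _) (ih _)

lemma itn_le_one (hk : IsKer k) (n : ℕ) (x : S) : itn next k T n x ≤ 1 := by
  induction n generalizing x with
  | zero => rw [itn_zero]; by_cases hx : x ∈ T <;> simp [hx]
  | succ n ih =>
    rw [itn_succ]
    by_cases hx : x ∈ T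
    · rw [op_mem hx]
    · rw [op_not_mem hx]
      calc ∑ a, ∑ b, k x a b * itn next k T n (next x a b)
          ≤ ∑ a, ∑ b, k x a b * 1 := Finset.sum_le_sum fun a _ => Finset.sum_le_sum fun b _ =>
            mul_le_mul_of_nonneg_left (ih _) (hk.nonneg _ _ _)
        _ = 1 := avg_const hk x 1

lemma itn_le_succ (hk : IsKer k) (n : ℕ) (x : S) :
    itn next k T n x ≤ itn next k T (n + 1) x := by
  induction n generalizing x with
  | zero =>
    rw [itn_succ]
    by_cases hx : x ∈ T
    · rw [op_mem hx]; exact itn_le_one hk 0 x
    · have : itn next k T 0 x = 0 := by rw [itn_zero]; simp [hx]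
      rw [this, op_not_mem hx]
      exact Finset.sum_nonneg fun a _ => Finset.sum_nonneg fun b _ =>
        mul_nonneg (hk.nonneg _ _ _) (itn_nonneg hk _ _)
  | succ n ih =>
    rw [itn_succ n, itn_succ (n + 1)]
    exact op_mono hk ih x

lemma itn_monotone (hk : IsKer k) (x : S) : Monotone fun n => itn next k T n x :=
  monotone_nat_of_le_succ fun n => itn_le_succ hk n x

lemma bdd (hk : IsKer k) (x : S) : BddAbove (Set.range fun n => itn next k T n x) :=
  ⟨1, by rintro _ ⟨n, rfl⟩; exact itn_le_one hk n x⟩

lemma tendsto_itn (hk : IsKer k) (x : S) :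
    Tendsto (fun n => itn next k T n x) atTop (𝓝 (rch next k T x)) :=
  tendsto_atTop_ciSup (itn_monotone hk x) (bdd hk x)

lemma itn_le_rch (hk : IsKer k) (n : ℕ) (x : S) : itn next k T n x ≤ rch next k T x :=
  le_ciSup (bdd hk x) n

lemma rch_le {x : S} {c : ℝ} (h : ∀ n, itn next k T n x ≤ c) : rch next k T x ≤ c :=
  ciSup_le h

lemma rch_nonneg (hk : IsKer k) (x : S) : 0 ≤ rch next k T x :=
  (itn_nonneg hk 0 x).trans (itn_le_rch hk 0 x)

lemma rch_le_one (hk : IsKer k) (x : S) : rch next k T x ≤ 1 :=
  rch_le fun n => itn_le_one hk n x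

lemma rch_mem (hk : IsKer k) {x : S} (hx : x ∈ T) : rch next k T x = 1 := by
  apply le_antisymm (rch_le_one hk x)
  have := itn_le_rch (next := next) (T := T) hk 0 x
  rw [itn_zero] at this
  simpa [hx] using this

/-- the hitting probability satisfies the one-step equation -/
lemma rch_eq (hk : IsKer k) {x : S} (hx : x ∉ T) :
    rch next k T x = ∑ a, ∑ b, k x a b * rch next k T (next x a b) := by
  have h1 : Tendsto (fun n => itn next k T (n + 1) x) atTop (𝓝 (rch next k T x)) :=
    (tendsto_add_atTop_iff_nat 1).2 (tendsto_itn hk x)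
  have h2 : Tendsto (fun n => itn next k T (n + 1) x) atTop
      (𝓝 (∑ a, ∑ b, k x a b * rch next k T (next x a b))) := by
    have : (fun n => itn next k T (n + 1) x) =
        fun n => ∑ a, ∑ b, k x a b * itn next k T n (next x a b) := by
      funext n
      rw [itn_succ, op_not_mem hx]
    rw [this]
    exact tendsto_finsetSum _ fun a _ => tendsto_finsetSum _ fun b _ =>
      (tendsto_itn hk _).const_mul _
  exact tendsto_nhds_unique h1 h2

/-- on a closed set of states that avoids `T` the hitting probability is zero -/
lemma rch_closed (hk : IsKer k) (C : Set S) (hT : ∀ x ∈ C, x ∉ T)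
    (hC : ∀ x ∈ C, ∀ a b, k x a b ≠ 0 → next x a b ∈ C) {x : S} (hx : x ∈ C) :
    rch next k T x = 0 := by
  have h : ∀ n, ∀ x ∈ C, itn next k T n x = 0 := by
    intro n
    induction n with
    | zero => intro x hx; rw [itn_zero]; simp [hT x hx]
    | succ n ih =>
      intro x hx
      rw [itn_succ, op_not_mem (hT x hx)]
      refine Finset.sum_eq_zero fun a _ => Finset.sum_eq_zero fun b _ => ?_
      by_cases hz : k x a b = 0
      · rw [hz, zero_mul]
      · rw [ih _ (hC x hx a b hz), mul_zero]
  exact le_antisymm (rch_le fun n => (h n x hx).le) (rch_nonneg hk x)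

/-- one-shot deviation principle: if `k'` agrees with `k` outside the state `s`, then the value of
playing `k'` once at `s` and then `k` is at most the larger of the two values at `s`. -/
lemma oneshot {k' : S → A → B → ℝ} (hk : IsKer k) (hk' : IsKer k') {s : S} (hs : s ∉ T)
    (hag : ∀ t, t ≠ s → ∀ a b, k' t a b = k t a b) :
    ∑ a, ∑ b, k' s a b * rch next k T (next s a b) ≤
      max (rch next k T s) (rch next k' T s) := by
  set d : ℝ := max 0 (rch next k T s - rch next k' T s) with hd
  have hd0 : 0 ≤ d := le_max_left _ _
  have hd1 : rch next k T s - rch next k' T s ≤ d := le_max_right _ _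
  have key : ∀ n t, itn next k T n t ≤ rch next k' T t + d := by
    intro n
    induction n with
    | zero =>
      intro t
      rw [itn_zero]
      by_cases ht : t ∈ T
      · simp [ht, rch_mem hk' ht, hd0]
      · have := rch_nonneg (next := next) (T := T) hk' t
        simp only [ht, not_false_eq_true, Set.indicator_of_notMem]
        linarith
    | succ n ih =>
      intro t
      by_cases hts : t = s
      · subst hts
        have := itn_le_rch (next := next) (T := T) hk (n + 1) t
        linarith
      · by_cases ht : t ∈ T
        · have h1 := itn_le_one (next := next) (T := T) hk (n + 1) t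
          rw [rch_mem hk' ht]; linarith
        · rw [itn_succ, op_not_mem ht, rch_eq hk' ht]
          calc ∑ a, ∑ b, k t a b * itn next k T n (next t a b)
              ≤ ∑ a, ∑ b, k t a b * (rch next k' T (next t a b) + d) :=
                Finset.sum_le_sum fun a _ => Finset.sum_le_sum fun b _ =>
                  mul_le_mul_of_nonneg_left (ih _) (hk.nonneg _ _ _)
            _ = ∑ a, ∑ b, k t a b * rch next k' T (next t a b) + ∑ a, ∑ b, k t a b * d := by
                simp only [mul_add, Finset.sum_add_distrib]
            _ = ∑ a, ∑ b, k' t a b * rch next k' T (next t a b) + d := by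
                rw [avg_const hk t d]
                simp only [hag t hts]
  have key2 : ∀ t, rch next k T t ≤ rch next k' T t + d := fun t => rch_le fun n => key n t
  have h3 : ∑ a, ∑ b, k' s a b * rch next k T (next s a b) ≤ rch next k' T s + d := by
    calc ∑ a, ∑ b, k' s a b * rch next k T (next s a b)
        ≤ ∑ a, ∑ b, k' s a b * (rch next k' T (next s a b) + d) :=
          Finset.sum_le_sum fun a _ => Finset.sum_le_sum fun b _ =>
            mul_le_mul_of_nonneg_left (key2 _) (hk'.nonneg _ _ _)
      _ = ∑ a, ∑ b, k' s a b * rch next k' T (next s a b) + ∑ a, ∑ b, k' s a b * d := by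
          simp only [mul_add, Finset.sum_add_distrib]
      _ = rch next k' T s + d := by rw [avg_const hk' s d, ← rch_eq hk' hs]
  rcases le_total (rch next k T s) (rch next k' T s) with h | h
  · have : d = 0 := by rw [hd]; exact max_eq_left (by linarith)
    rw [this, add_zero] at h3
    exact h3.trans (le_max_right _ _)
  · have : d = rch next k T s - rch next k' T s := by rw [hd]; exact max_eq_right (by linarith)
    rw [this] at h3
    exact (by linarith : _ ≤ rch next k T s).trans (le_max_left _ _)

/-- evaluation at a state with two possible successors -/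
lemma rch_ite (hk : IsKer k) {x s t : S} (hx : x ∉ T) (c : A → B → Prop)
    [∀ a b, Decidable (c a b)] (h : ∀ a b, next x a b = if c a b then s else t) :
    rch next k T x = (∑ a, ∑ b, if c a b then k x a b else 0) * rch next k T s +
      (1 - ∑ a, ∑ b, if c a b then k x a b else 0) * rch next k T t := by
  rw [rch_eq hk hx]
  have h1 : ∀ a b, k x a b * rch next k T (next x a b) =
      (if c a b then k x a b else 0) * rch next k T s +
        (k x a b - if c a b then k x a b else 0) * rch next k T t := by
    intro a b
    rw [h a b]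
    split_ifs <;> ring
  simp only [h1, Finset.sum_add_distrib, ← Finset.sum_mul, Finset.sum_sub_distrib]
  rw [hk.total]

end Pool.Agent.K3h3.Reach
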