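import Pool.Agent.K3h3.ReachMain

/-!
# No stationary `1/10000`-Nash equilibrium: end of the proof
-/

set_option autoImplicit false

namespace Pool.Agent.K3h3.Reach

open St

variable {σ τ : St → Fin 3 → ℝ} {T : Set St}

lemma zero_of_one (hσ : Sto σ) {x : St} (h : σ x 0 = 1) {a : Fin 3} (ha : a ≠ 0) : σ x a = 0 := by
  have h3 := sum3 hσ x
  have h1 := hσ.1 x 1
  have h2 := hσ.1 x 2
  fin_cases a
  · exact absurd rfl ha
  · show σ x 1 = 0; linarith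
  · show σ x 2 = 0; linarith

lemma X_step (a b : Fin 3) : nxt X a b = F ∨ nxt X a b = Y := by
  show (if a = 0 then F else Y) = F ∨ (if a = 0 then F else Y) = Y
  split_ifs <;> simp

lemma Y_step (a b : Fin 3) : nxt Y a b = G ∨ nxt Y a b = X := by
  show (if b = 0 then G else X) = G ∨ (if b = 0 then G else X) = X
  split_ifs <;> simp

lemma X_step0 (h : σ X 0 = 0) (a b : Fin 3) (ha : σ X a ≠ 0) : nxt X a b = Y := by
  show (if a = 0 then F else Y) = Y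
  rw [if_neg]; rintro rfl; exact ha h

lemma Y_step0 (h : τ Y 0 = 0) (a b : Fin 3) (hb : τ Y b ≠ 0) : nxt Y a b = X := by
  show (if b = 0 then G else X) = X
  rw [if_neg]; rintro rfl; exact hb h

lemma X_step1 (hσ : Sto σ) (h : σ X 0 = 1) (a b : Fin 3) (ha : σ X a ≠ 0) : nxt X a b = F := by
  show (if a = 0 then F else Y) = F
  rw [if_pos]; by_contra hc; exact ha (zero_of_one hσ h hc)

lemma Y_step1 (hτ : Sto τ) (h : τ Y 0 = 1) (a b : Fin 3) (hb : τ Y b ≠ 0) : nxt Y a b = G := by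
  show (if b = 0 then G else X) = G
  rw [if_pos]; by_contra hc; exact hb (zero_of_one hτ h hc)

lemma W_step1 (hτ : Sto τ) (h : τ W 0 = 1) (a b : Fin 3) (hb : τ W b ≠ 0) : nxt W a b = X := by
  show (if b = 0 then X else t1) = X
  rw [if_pos]; by_contra hc; exact hb (zero_of_one hτ h hc)

lemma Z_step1 (hσ : Sto σ) (h : σ Z 0 = 1) (a b : Fin 3) (ha : σ Z a ≠ 0) : nxt Z a b = Y := by
  show (if a = 0 then Y else t2) = Y
  rw [if_pos]; by_contra hc; exact ha (zero_of_one hσ h hc)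

lemma mat_zero (hσ : Sto σ) (hτ : Sto τ) {x : St} (h : mat σ τ x = 0) (a : Fin 3)
    (ha : σ x a ≠ 0) (hb : τ x a ≠ 0) : False := by
  have h0 := mul_nonneg (hσ.1 x 0) (hτ.1 x 0)
  have h1 := mul_nonneg (hσ.1 x 1) (hτ.1 x 1)
  have h2 := mul_nonneg (hσ.1 x 2) (hτ.1 x 2)
  have hp : 0 < σ x a * τ x a :=
    mul_pos (lt_of_le_of_ne (hσ.1 x a) ha.symm) (lt_of_le_of_ne (hτ.1 x a) hb.symm)
  unfold mat at h
  fin_cases a
  · change 0 < σ x 0 * τ x 0 at hp; linarith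
  · change 0 < σ x 1 * τ x 1 at hp; linarith
  · change 0 < σ x 2 * τ x 2 at hp; linarith

lemma F_step (hσ : Sto σ) (hτ : Sto τ) (h : mat σ τ F = 0) (a b : Fin 3)
    (ha : σ F a ≠ 0) (hb : τ F b ≠ 0) : nxt F a b = W := by
  show (if a = b then U else W) = W
  rw [if_neg]; rintro rfl; exact mat_zero hσ hτ h a ha hb

lemma G_step (hσ : Sto σ) (hτ : Sto τ) (h : mat σ τ G = 0) (a b : Fin 3)
    (ha : σ G a ≠ 0) (hb : τ G b ≠ 0) : nxt G a b = Z := by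
  show (if a = b then V else Z) = Z
  rw [if_neg]; rintro rfl; exact mat_zero hσ hτ h a ha hb

section
variable (hσ : Sto σ) (hτ : Sto τ)
include hσ hτ

lemma cl0 (hT : X ∉ T ∧ Y ∉ T) (hp : σ X 0 = 0) (hq : τ Y 0 = 0) :
    val σ τ T X = 0 := by
  refine val_closed hσ hτ {X, Y} ?_ ?_ (Or.inl rfl)
  · rintro x (rfl | rfl)
    exacts [hT.1, hT.2]
  · rintro x (rfl | rfl) a b ha hb
    · rw [X_step0 hp a b ha]; simp
    · rw [Y_step0 hq a b hb]; simp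

lemma cl1 (hT : X ∉ T ∧ Y ∉ T ∧ F ∉ T ∧ W ∉ T) (hq : τ Y 0 = 0) (hm : mat σ τ F = 0)
    (hr : τ W 0 = 1) : val σ τ T X = 0 := by
  refine val_closed hσ hτ {X, Y, F, W} ?_ ?_ (Or.inl rfl)
  · rintro x (rfl | rfl | rfl | rfl)
    exacts [hT.1, hT.2.1, hT.2.2.1, hT.2.2.2]
  · rintro x (rfl | rfl | rfl | rfl) a b ha hb
    · rcases X_step a b with h | h <;> rw [h] <;> simp
    · rw [Y_step0 hq a b hb]; simp
    · rw [F_step hσ hτ hm a b ha hb]; simp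
    · rw [W_step1 hτ hr a b hb]; simp

lemma cl2 (hT : X ∉ T ∧ Y ∉ T ∧ G ∉ T ∧ Z ∉ T) (hp : σ X 0 = 0) (hn : mat σ τ G = 0)
    (hs : σ Z 0 = 1) : val σ τ T Y = 0 := by
  refine val_closed hσ hτ {X, Y, G, Z} ?_ ?_ (Or.inr (Or.inl rfl))
  · rintro x (rfl | rfl | rfl | rfl)
    exacts [hT.1, hT.2.1, hT.2.2.1, hT.2.2.2]
  · rintro x (rfl | rfl | rfl | rfl) a b ha hb
    · rw [X_step0 hp a b ha]; simp
    · rcases Y_step a b with h | h <;> rw [h] <;> simp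
    · rw [G_step hσ hτ hn a b ha hb]; simp
    · rw [Z_step1 hσ hs a b ha]; simp

lemma cl3 (hT : X ∉ T ∧ F ∉ T ∧ W ∉ T) (hp : σ X 0 = 1) (hm : mat σ τ F = 0)
    (hr : τ W 0 = 1) : val σ τ T X = 0 := by
  refine val_closed hσ hτ {X, F, W} ?_ ?_ (Or.inl rfl)
  · rintro x (rfl | rfl | rfl)
    exacts [hT.1, hT.2.1, hT.2.2]
  · rintro x (rfl | rfl | rfl) a b ha hb
    · rw [X_step1 hσ hp a b ha]; simp
    · rw [F_step hσ hτ hm a b ha hb]; simp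
    · rw [W_step1 hτ hr a b hb]; simp

lemma cl4 (hT : Y ∉ T ∧ G ∉ T ∧ Z ∉ T) (hq : τ Y 0 = 1) (hn : mat σ τ G = 0)
    (hs : σ Z 0 = 1) : val σ τ T Y = 0 := by
  refine val_closed hσ hτ {Y, G, Z} ?_ ?_ (Or.inl rfl)
  · rintro x (rfl | rfl | rfl)
    exacts [hT.1, hT.2.1, hT.2.2]
  · rintro x (rfl | rfl | rfl) a b ha hb
    · rw [Y_step1 hτ hq a b hb]; simp
    · rw [G_step hσ hτ hn a b ha hb]; simp
    · rw [Z_step1 hσ hs a b ha]; simp

lemma cl5 (hT : X ∉ T ∧ Y ∉ T ∧ F ∉ T ∧ G ∉ T ∧ W ∉ T ∧ Z ∉ T) (hm : mat σ τ F = 0)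
    (hr : τ W 0 = 1) (hn : mat σ τ G = 0) (hs : σ Z 0 = 1) : val σ τ T X = 0 := by
  refine val_closed hσ hτ {X, Y, F, G, W, Z} ?_ ?_ (Or.inl rfl)
  · rintro x (rfl | rfl | rfl | rfl | rfl | rfl)
    exacts [hT.1, hT.2.1, hT.2.2.1, hT.2.2.2.1, hT.2.2.2.2.1, hT.2.2.2.2.2]
  · rintro x (rfl | rfl | rfl | rfl | rfl | rfl) a b ha hb
    · rcases X_step a b with h | h <;> rw [h] <;> simp
    · rcases Y_step a b with h | h <;> rw [h] <;> simp
    · rw [F_step hσ hτ hm a b ha hb]; simp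
    · rw [G_step hσ hτ hn a b ha hb]; simp
    · rw [W_step1 hτ hr a b hb]; simp
    · rw [Z_step1 hσ hs a b ha]; simp

end

lemma split_D {m r : ℝ} (hm0 : 0 ≤ m) (hm1 : m ≤ 1) (hr1 : r ≤ 1)
    (h : m + (1 - m) * (1 - r) = 0) : m = 0 ∧ r = 1 := by
  have h1 := mul_nonneg (by linarith : 0 ≤ 1 - m) (by linarith : 0 ≤ 1 - r)
  have hm : m = 0 := by linarith
  subst hm
  constructor
  · rfl
  · linarith

theorem no_eq (hσ : Sto σ) (hτ : Sto τ) (h1 : Eq1 σ τ) (h2 : Eq2 σ τ) : False := by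
  -- notation
  obtain ⟨p, hp⟩ : ∃ p, p = σ X 0 := ⟨_, rfl⟩
  obtain ⟨q, hq⟩ : ∃ q, q = τ Y 0 := ⟨_, rfl⟩
  obtain ⟨m, hm⟩ : ∃ m, m = mat σ τ F := ⟨_, rfl⟩
  obtain ⟨n, hn⟩ : ∃ n, n = mat σ τ G := ⟨_, rfl⟩
  obtain ⟨r, hr⟩ : ∃ r, r = τ W 0 := ⟨_, rfl⟩
  obtain ⟨s, hs⟩ : ∃ s, s = σ Z 0 := ⟨_, rfl⟩
  obtain ⟨u1, hu1⟩ : ∃ c, c = val σ τ T1 U := ⟨_, rfl⟩
  obtain ⟨u2, hu2⟩ : ∃ c, c = val σ τ T2 U := ⟨_, rfl⟩
  obtain ⟨v1, hv1⟩ : ∃ c, c = val σ τ T1 V := ⟨_, rfl⟩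
  obtain ⟨v2, hv2⟩ : ∃ c, c = val σ τ T2 V := ⟨_, rfl⟩
  obtain ⟨a, ha⟩ : ∃ c, c = val σ τ T1 M := ⟨_, rfl⟩
  obtain ⟨b, hb⟩ : ∃ c, c = val σ τ T2 M := ⟨_, rfl⟩
  obtain ⟨x1, hx1⟩ : ∃ c, c = val σ τ T1 X := ⟨_, rfl⟩
  obtain ⟨x2, hx2⟩ : ∃ c, c = val σ τ T2 X := ⟨_, rfl⟩
  obtain ⟨y1, hy1⟩ : ∃ c, c = val σ τ T1 Y := ⟨_, rfl⟩
  obtain ⟨y2, hy2⟩ : ∃ c, c = val σ τ T2 Y := ⟨_, rfl⟩
  obtain ⟨f1, hf1⟩ : ∃ c, c = val σ τ T1 F := ⟨_, rfl⟩
  obtain ⟨f2, hf2⟩ : ∃ c, c = val σ τ T2 F := ⟨_, rfl⟩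
  obtain ⟨g1, hg1⟩ : ∃ c, c = val σ τ T1 G := ⟨_, rfl⟩
  obtain ⟨g2, hg2⟩ : ∃ c, c = val σ τ T2 G := ⟨_, rfl⟩
  obtain ⟨w1, hw1⟩ : ∃ c, c = val σ τ T1 W := ⟨_, rfl⟩
  obtain ⟨w2, hw2⟩ : ∃ c, c = val σ τ T2 W := ⟨_, rfl⟩
  obtain ⟨z1, hz1⟩ : ∃ c, c = val σ τ T1 Z := ⟨_, rfl⟩
  obtain ⟨z2, hz2⟩ : ∃ c, c = val σ τ T2 Z := ⟨_, rfl⟩
  -- ranges
  have hp0 : 0 ≤ p := hp ▸ hσ.1 X 0
  have hp1 : p ≤ 1 := hp ▸ le_one hσ X 0
  have hq0 : 0 ≤ q := hq ▸ hτ.1 Y 0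
  have hq1 : q ≤ 1 := hq ▸ le_one hτ Y 0
  have hm0 : 0 ≤ m := hm ▸ mat_nonneg hσ hτ F
  have hm1 : m ≤ 1 := hm ▸ mat_le_one hσ hτ F
  have hn0 : 0 ≤ n := hn ▸ mat_nonneg hσ hτ G
  have hn1 : n ≤ 1 := hn ▸ mat_le_one hσ hτ G
  have hr0 : 0 ≤ r := hr ▸ hτ.1 W 0
  have hr1 : r ≤ 1 := hr ▸ le_one hτ W 0
  have hs0 : 0 ≤ s := hs ▸ hσ.1 Z 0
  have hs1 : s ≤ 1 := hs ▸ le_one hσ Z 0
  have hx10 : 0 ≤ x1 := hx1 ▸ val_nonneg hσ hτ X
  have hx20 : 0 ≤ x2 := hx2 ▸ val_nonneg hσ hτ X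
  have hy10 : 0 ≤ y1 := hy1 ▸ val_nonneg hσ hτ Y
  have hy20 : 0 ≤ y2 := hy2 ▸ val_nonneg hσ hτ Y
  have hw10 : 0 ≤ w1 := hw1 ▸ val_nonneg hσ hτ W
  -- equations
  have eX1 := X1 hσ hτ; have eX2 := X2 hσ hτ
  have eY1 := Y1 hσ hτ; have eY2 := Y2 hσ hτ
  have eF1 := F1 hσ hτ; have eF2 := F2 hσ hτ
  have eG1 := G1 hσ hτ; have eG2 := G2 hσ hτ
  have eW1 := W1 hσ hτ; have eW2 := W2 hσ hτ
  have eZ1 := Z1 hσ hτ; have eZ2 := Z2 hσ hτ
  have eU1 := U1 hσ hτ; have eU2 := U2 hσ hτ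
  have eV1 := V1 hσ hτ; have eV2 := V2 hσ hτ
  have eM1 := M1 hσ hτ; have eM2 := M2 hσ hτ
  -- gadgets
  have u1l : 1 / 3 - 1 / 10000 ≤ u1 := by
    have := match1 hσ hτ h1 nU1 (s := St.w1) (t := St.w2) (fun _ _ => rfl)
    rw [val_mem hσ hτ mw1, w2_1 hσ hτ, ← hu1] at this
    linarith
  have u2l : 2 / 3 - 1 / 10000 ≤ u2 := by
    have := match2 hσ hτ h2 nU2 (s := St.w1) (t := St.w2) (fun _ _ => rfl)
    rw [val_mem hσ hτ mw2, w1_2 hσ hτ, ← hu2] at this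
    linarith
  have v1l : 2 / 3 - 1 / 10000 ≤ v1 := by
    have := match1 hσ hτ h1 nV1 (s := St.w2) (t := St.w1) (fun _ _ => rfl)
    rw [val_mem hσ hτ mw1, w2_1 hσ hτ, ← hv1] at this
    linarith
  have v2l : 1 / 3 - 1 / 10000 ≤ v2 := by
    have := match2 hσ hτ h2 nV2 (s := St.w2) (t := St.w1) (fun _ _ => rfl)
    rw [val_mem hσ hτ mw2, w1_2 hσ hτ, ← hv2] at this
    linarith
  have us : u1 + u2 = 1 := by rw [hu1, hu2, eU1, eU2]; ring
  have vs : v1 + v2 = 1 := by rw [hv1, hv2, eV1, eV2]; ring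
  have ab : a + b = 1 := by rw [ha, hb, eM1, eM2]; ring
  have al : 1 / 2 - 1 / 10000 ≤ a := by
    have k0 := local1 hσ hτ h1 nM1 0
    have k1 := local1 hσ hτ h1 nM1 1
    simp only [Fin.sum_univ_three] at k0 k1
    have e00 : nxt M 0 0 = St.w1 := rfl
    have e01 : nxt M 0 1 = St.w2 := rfl
    have e02 : nxt M 0 2 = St.w2 := rfl
    have e10 : nxt M 1 0 = St.w2 := rfl
    have e11 : nxt M 1 1 = St.w1 := rfl
    have e12 : nxt M 1 2 = St.w1 := rfl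
    rw [e00, e01, e02, val_mem hσ hτ mw1, w2_1 hσ hτ, ← ha] at k0
    rw [e10, e11, e12, val_mem hσ hτ mw1, w2_1 hσ hτ, ← ha] at k1
    have := sum3 hτ M
    linarith
  have bl : 1 / 2 - 1 / 10000 ≤ b := by
    have k0 := local2 hσ hτ h2 nM2 0
    have k1 := local2 hσ hτ h2 nM2 1
    simp only [Fin.sum_univ_three] at k0 k1
    have e00 : nxt M 0 0 = St.w1 := rfl
    have e10 : nxt M 1 0 = St.w2 := rfl
    have e20 : nxt M 2 0 = St.w2 := rfl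
    have e01 : nxt M 0 1 = St.w2 := rfl
    have e11 : nxt M 1 1 = St.w1 := rfl
    have e21 : nxt M 2 1 = St.w1 := rfl
    rw [e00, e10, e20, val_mem hσ hτ mw2, w1_2 hσ hτ, ← hb] at k0
    rw [e01, e11, e21, val_mem hσ hτ mw2, w1_2 hσ hτ, ← hb] at k1
    have := sum3 hσ M
    linarith
  -- local inequalities
  have L1a : f1 ≤ x1 + 1 / 10000 := by
    have := solo1 hσ hτ h1 nX1 (s := F) 0 (fun _ => rfl)
    rwa [← hf1, ← hx1] at this
  have L1b : y1 ≤ x1 + 1 / 10000 := by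
    have := solo1 hσ hτ h1 nX1 (s := Y) 1 (fun _ => rfl)
    rwa [← hy1, ← hx1] at this
  have L2a : g2 ≤ y2 + 1 / 10000 := by
    have := solo2 hσ hτ h2 nY2 (s := G) 0 (fun _ => rfl)
    rwa [← hg2, ← hy2] at this
  have L2b : x2 ≤ y2 + 1 / 10000 := by
    have := solo2 hσ hτ h2 nY2 (s := X) 1 (fun _ => rfl)
    rwa [← hx2, ← hy2] at this
  have L3a : x2 ≤ w2 + 1 / 10000 := by
    have := solo2 hσ hτ h2 nW2 (s := X) 0 (fun _ => rfl)
    rwa [← hx2, ← hw2] at this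
  have L3b : b ≤ w2 + 1 / 10000 := by
    have := solo2 hσ hτ h2 nW2 (s := St.t1) 1 (fun _ => rfl)
    rwa [val_t hσ hτ St.t1 nt12 (fun _ _ => rfl), ← hb, ← hw2] at this
  have L4a : y1 ≤ z1 + 1 / 10000 := by
    have := solo1 hσ hτ h1 nZ1 (s := Y) 0 (fun _ => rfl)
    rwa [← hy1, ← hz1] at this
  have L4b : a ≤ z1 + 1 / 10000 := by
    have := solo1 hσ hτ h1 nZ1 (s := St.t2) 1 (fun _ => rfl)
    rwa [val_t hσ hτ St.t2 nt21 (fun _ _ => rfl), ← ha, ← hz1] at this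
  have L5a : u1 + 2 * w1 ≤ 3 * f1 + 3 / 10000 := by
    have := match1 hσ hτ h1 nF1 (s := U) (t := W) (fun _ _ => rfl)
    rwa [← hu1, ← hw1, ← hf1] at this
  have L5b : u2 + 2 * w2 ≤ 3 * f2 + 3 / 10000 := by
    have := match2 hσ hτ h2 nF2 (s := U) (t := W) (fun _ _ => rfl)
    rwa [← hu2, ← hw2, ← hf2] at this
  have L6a : v1 + 2 * z1 ≤ 3 * g1 + 3 / 10000 := by
    have := match1 hσ hτ h1 nG1 (s := V) (t := Z) (fun _ _ => rfl)
    rwa [← hv1, ← hz1, ← hg1] at this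
  have L6b : v2 + 2 * z2 ≤ 3 * g2 + 3 / 10000 := by
    have := match2 hσ hτ h2 nG2 (s := V) (t := Z) (fun _ _ => rfl)
    rwa [← hv2, ← hz2, ← hg2] at this
  -- global inequalities
  have K1 := glob1 hσ hτ h1
  have K2 := glob2 hσ hτ h1
  have K3 := glob3 hσ hτ h2
  have K4 := glob4 hσ hτ h2
  -- closed classes
  have c0 : p = 0 → q = 0 → x1 = 0 := fun h h' => by
    rw [hx1]; exact cl0 hσ hτ ⟨nX1, nY1⟩ (hp ▸ h) (hq ▸ h')
  have c1 : q = 0 → m + (1 - m) * (1 - r) = 0 → x2 = 0 := fun h h' => by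
    obtain ⟨hm', hr'⟩ := split_D hm0 hm1 hr1 h'
    rw [hx2]; exact cl1 hσ hτ ⟨nX2, nY2, nF2, nW2⟩ (hq ▸ h) (hm ▸ hm') (hr ▸ hr')
  have c2 : p = 0 → n + (1 - n) * (1 - s) = 0 → y1 = 0 := fun h h' => by
    obtain ⟨hn', hs'⟩ := split_D hn0 hn1 hs1 h'
    rw [hy1]; exact cl2 hσ hτ ⟨nX1, nY1, nG1, nZ1⟩ (hp ▸ h) (hn ▸ hn') (hs ▸ hs')
  have c3 : p = 1 → m + (1 - m) * (1 - r) = 0 → x2 = 0 := fun h h' => by
    obtain ⟨hm', hr'⟩ := split_D hm0 hm1 hr1 h'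
    rw [hx2]; exact cl3 hσ hτ ⟨nX2, nF2, nW2⟩ (hp ▸ h) (hm ▸ hm') (hr ▸ hr')
  have c4 : q = 1 → n + (1 - n) * (1 - s) = 0 → y1 = 0 := fun h h' => by
    obtain ⟨hn', hs'⟩ := split_D hn0 hn1 hs1 h'
    rw [hy1]; exact cl4 hσ hτ ⟨nY1, nG1, nZ1⟩ (hq ▸ h) (hn ▸ hn') (hs ▸ hs')
  have c5 : m + (1 - m) * (1 - r) = 0 → n + (1 - n) * (1 - s) = 0 → x2 = 0 := fun h h' => by
    obtain ⟨hm', hr'⟩ := split_D hm0 hm1 hr1 h
    obtain ⟨hn', hs'⟩ := split_D hn0 hn1 hs1 h'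
    rw [hx2]
    exact cl5 hσ hτ ⟨nX2, nY2, nF2, nG2, nW2, nZ2⟩ (hm ▸ hm') (hr ▸ hr') (hn ▸ hn') (hs ▸ hs')
  -- rewrite everything in terms of the real variables
  rw [← hx1, ← hp, ← hf1, ← hy1] at eX1
  rw [← hx2, ← hp, ← hf2, ← hy2] at eX2
  rw [← hy1, ← hq, ← hg1, ← hx1] at eY1
  rw [← hy2, ← hq, ← hg2, ← hx2] at eY2
  rw [← hf1, ← hm, ← hu1, ← hw1] at eF1
  rw [← hf2, ← hm, ← hu2, ← hw2] at eF2
  rw [← hg1, ← hn, ← hv1, ← hz1] at eG1
  rw [← hg2, ← hn, ← hv2, ← hz2] at eG2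
  rw [← hw1, ← hr, ← hx1] at eW1
  rw [← hw2, ← hr, ← hx2, ← hb] at eW2
  rw [← hz1, ← hs, ← hy1, ← ha] at eZ1
  rw [← hz2, ← hs, ← hy2] at eZ2
  rw [← hq, ← hn, ← hv1, ← hs, ← ha, ← hx1] at K1
  rw [← hm, ← hu1, ← hr, ← hx1] at K2
  rw [← hp, ← hm, ← hu2, ← hr, ← hb, ← hy2] at K3
  rw [← hn, ← hv2, ← hs, ← hy2] at K4
  clear hp hq hm hn hr hs hu1 hu2 hv1 hv2 ha hb hx1 hx2 hy1 hy2 hf1 hf2 hg1 hg2 hw1 hw2 hz1 hz2
  clear eU1 eU2 eV1 eV2 eM1 eM2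
  have κ0 : 0 ≤ (1 - m) * (1 - r) := mul_nonneg (by linarith) (by linarith)
  have κ'0 : 0 ≤ (1 - n) * (1 - s) := mul_nonneg (by linarith) (by linarith)
  -- Claim A
  have hA : 0 < q → v1 - 1 / 100 ≤ y1 := fun hq =>
    claimA hq hq1 hn0 hn1 hs0 hs1 v1l (by linarith) eZ1 eG1 eY1 L1b L4a L6a (K1 hq)
  have hA' : 0 < p → u2 - 1 / 100 ≤ x2 := fun hp =>
    claimA hp hp1 hm0 hm1 hr0 hr1 u2l (by linarith) eW2 eF2 eX2 L2b L3a L5b (K3 hp)
  -- case analysis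
  rcases hq0.lt_or_eq with hq | hq
  · rcases hp0.lt_or_eq with hp | hp
    · -- main case
      have hy := hA hq
      have hx := hA' hp
      have i1 : p * (m * (u1 - x1) + (1 - m) * (1 - r) * (1 - x1)) = (1 - p) * (x1 - y1) := by
        rw [eW1] at eF1; rw [eF1] at eX1; linear_combination -eX1
      have i2 : p * (m * (u2 - x2) + (1 - m) * (1 - r) * (b - x2)) = (1 - p) * (x2 - y2) := by
        rw [eW2] at eF2; rw [eF2] at eX2; linear_combination -eX2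
      have k1 : q * (n * (v1 - y1) + (1 - n) * (1 - s) * (a - y1)) = (1 - q) * (y1 - x1) := by
        rw [eZ1] at eG1; rw [eG1] at eY1; linear_combination -eY1
      have k2 : q * (n * (v2 - y2) + (1 - n) * (1 - s) * (1 - y2)) = (1 - q) * (y2 - x2) := by
        rw [eZ2] at eG2; rw [eG2] at eY2; linear_combination -eY2
      obtain ⟨d1, d2⟩ := claimC hp0 hp1 hq0 hq1 hm0 hn0 κ0 κ'0 (by linarith) u2l v1l (by linarith)
        (by linarith) (by linarith) hx hy L1b L2b K2 K4 i1 i2 k1 k2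
      have hD : 1 - q = 0 ∨ m + (1 - m) * (1 - r) = 0 := by
        rcases mul_eq_zero.1 d1 with h | h
        · rcases mul_eq_zero.1 h with h | h
          · exact Or.inl h
          · exact absurd h hp.ne'
        · exact Or.inr h
      have hD' : 1 - p = 0 ∨ n + (1 - n) * (1 - s) = 0 := by
        rcases mul_eq_zero.1 d2 with h | h
        · rcases mul_eq_zero.1 h with h | h
          · exact Or.inl h
          · exact absurd h hq.ne'
        · exact Or.inr h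
      rcases hD with hD | hD
      · rcases hD' with hD' | hD'
        · -- `p = q = 1`
          have e1 : m * (u1 - x1) + (1 - m) * (1 - r) * (1 - x1) = 0 := by
            have : p = 1 := by linarith
            rw [this] at i1; linarith
          have e2 : m * (u2 - x2) + (1 - m) * (1 - r) * (b - x2) = 0 := by
            have : p = 1 := by linarith
            rw [this] at i2; linarith
          have := claimD hm0 κ0 (by linarith) u2l (by linarith) (by linarith) hx e1 e2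
          have := c3 (by linarith) this
          linarith
        · have := c4 (by linarith) hD'
          linarith
      · rcases hD' with hD' | hD'
        · have := c3 (by linarith) hD
          linarith
        · have := c5 hD hD'
          linarith
    · -- `p = 0 < q`
      subst hp
      have hy := hA hq
      have ex1 : x1 = y1 := by linarith
      have ex2 : x2 = y2 := by linarith
      have eg1 : g1 = y1 := by
        have : q * (g1 - y1) = 0 := by rw [ex1] at eY1; linarith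
        rcases mul_eq_zero.1 this with h | h
        · exact absurd h hq.ne'
        · linarith
      have eg2 : g2 = y2 := by
        have : q * (g2 - y2) = 0 := by rw [ex2] at eY2; linarith
        rcases mul_eq_zero.1 this with h | h
        · exact absurd h hq.ne'
        · linarith
      refine claimB (m := n) (r := s) (s := r) (u1 := v2) (u2 := v1) (v2 := u1) (a := b) (b := a)
        (x1 := y2) (x2 := y1) (g2 := f1) (z1 := w2) (z2 := w1) hn0 hn1 hs1 hr0 hr1 (by linarith)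
        v1l (by linarith) u1l bl (by linarith) hy20 hy10 hy ?_ ?_ ?_ ?_ ?_ ?_ L3b L5a
      · rw [eZ2] at eG2; rw [eG2] at eg2; linear_combination eg2
      · rw [eZ1] at eG1; rw [eG1] at eg1; linear_combination eg1
      · intro h
        have := c2 rfl h
        linarith
      · rw [eW2, ex2]
      · rw [eW1, ex1]
      · linarith
  · -- `q = 0`
    subst hq
    have ex1 : y1 = x1 := by linarith
    have ex2 : y2 = x2 := by linarith
    rcases hp0.lt_or_eq with hp | hp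
    · have hx := hA' hp
      have ef1 : f1 = x1 := by
        have : p * (f1 - x1) = 0 := by rw [ex1] at eX1; linarith
        rcases mul_eq_zero.1 this with h | h
        · exact absurd h hp.ne'
        · linarith
      have ef2 : f2 = x2 := by
        have : p * (f2 - x2) = 0 := by rw [ex2] at eX2; linarith
        rcases mul_eq_zero.1 this with h | h
        · exact absurd h hp.ne'
        · linarith
      refine claimB (m := m) (r := r) (s := s) (u1 := u1) (u2 := u2) (v2 := v2) (a := a) (b := b)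
        (x1 := x1) (x2 := x2) (g2 := g2) (z1 := z1) (z2 := z2) hm0 hm1 hr1 hs0 hs1 (by linarith)
        u2l (by linarith) v2l al (by linarith) hx10 hx20 hx ?_ ?_ ?_ ?_ ?_ ?_ L4b L6b
      · rw [eW1] at eF1; rw [eF1] at ef1; linear_combination ef1
      · rw [eW2] at eF2; rw [eF2] at ef2; linear_combination ef2
      · intro h
        have := c1 rfl h
        linarith
      · rw [eZ1, ex1]
      · rw [eZ2, ex2]
      · linarith
    · subst hp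
      have := c0 rfl rfl
      linarith

end Pool.Agent.K3h3.Reach
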