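import Pool.Agent.K3h3.ReachBasic

/-!
# A deterministic concurrent two-player game
-/

set_option autoImplicit false

namespace Pool.Agent.K3h3.Reach



/-- the states -/
inductive St
  | X | Y | F | G | W | Z | U | V | M | t1 | t2 | w1 | w2
  deriving DecidableEq

open St

instance : Fintype St where
  elems := {X, Y, F, G, W, Z, U, V, M, t1, t2, w1, w2}
  complete := by intro x; cases x <;> decide

/-- the transitions -/
def nxt : St → Fin 3 → Fin 3 → St
  | X, a, _ => if a = 0 then F else Y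
  | Y, _, b => if b = 0 then G else X
  | F, a, b => if a = b then U else W
  | G, a, b => if a = b then V else Z
  | W, _, b => if b = 0 then X else t1
  | Z, a, _ => if a = 0 then Y else t2
  | U, a, b => if a = b then w1 else w2
  | V, a, b => if a = b then w2 else w1
  | M, a, b => if (a = 0 ↔ b = 0) then w1 else w2
  | t1, _, _ => M
  | t2, _, _ => M
  | w1, _, _ => w1
  | w2, _, _ => w2

/-- the target of player 1 -/
def T1 : Set St := {t1, w1}
/-- the target of player 2 -/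
def T2 : Set St := {t2, w2}

/-- joint weights of a profile -/
def kk (σ τ : St → Fin 3 → ℝ) : St → Fin 3 → Fin 3 → ℝ := fun x a b => σ x a * τ x b

/-- stochastic -/
def Sto (σ : St → Fin 3 → ℝ) : Prop := (∀ s a, 0 ≤ σ s a) ∧ ∀ s, ∑ a, σ s a = 1

/-- value -/
noncomputable def val (σ τ : St → Fin 3 → ℝ) (T : Set St) (s : St) : ℝ := rch nxt (kk σ τ) T s

variable {σ τ : St → Fin 3 → ℝ} {T : Set St}

lemma isKer (hσ : Sto σ) (hτ : Sto τ) : IsKer (kk σ τ) where
  nonneg x a b := mul_nonneg (hσ.1 x a) (hτ.1 x b)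
  total x := by
    have : ∑ a, ∑ b, kk σ τ x a b = (∑ a, σ x a) * ∑ b, τ x b := by
      rw [Finset.sum_mul_sum]; rfl
    rw [this, hσ.2, hτ.2, one_mul]

lemma sum3 (hσ : Sto σ) (x : St) : σ x 0 + σ x 1 + σ x 2 = 1 := by
  rw [← hσ.2 x, Fin.sum_univ_three]

lemma sum_fst (hτ : Sto τ) (x : St) :
    (∑ a, ∑ b, if a = (0 : Fin 3) then kk σ τ x a b else 0) = σ x 0 := by
  have h2 := sum3 hτ x
  simp only [Fin.sum_univ_three, kk]
  simp
  linear_combination σ x 0 * h2

lemma sum_snd (hσ : Sto σ) (x : St) :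
    (∑ a, ∑ b, if b = (0 : Fin 3) then kk σ τ x a b else 0) = τ x 0 := by
  have h2 := sum3 hσ x
  simp only [Fin.sum_univ_three, kk]
  simp
  linear_combination τ x 0 * h2

/-- matching probability -/
noncomputable def mat (σ τ : St → Fin 3 → ℝ) (x : St) : ℝ :=
  σ x 0 * τ x 0 + σ x 1 * τ x 1 + σ x 2 * τ x 2

lemma sum_mat (x : St) :
    (∑ a, ∑ b, if a = b then kk σ τ x a b else 0) = mat σ τ x := by
  simp only [Fin.sum_univ_three, kk, mat]
  simp

/-- probability of `a = 0 ↔ b = 0` -/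
noncomputable def mum (σ τ : St → Fin 3 → ℝ) (x : St) : ℝ :=
  σ x 0 * τ x 0 + (1 - σ x 0) * (1 - τ x 0)

lemma sum_mum (hσ : Sto σ) (hτ : Sto τ) (x : St) :
    (∑ a, ∑ b, if ((a : Fin 3) = 0 ↔ (b : Fin 3) = 0) then kk σ τ x a b else 0) = mum σ τ x := by
  have h1 := sum3 hσ x
  have h2 := sum3 hτ x
  simp only [Fin.sum_univ_three, kk, mum]
  simp
  linear_combination (τ x 1 + τ x 2) * h1 + (1 - σ x 0) * h2

lemma mat_nonneg (hσ : Sto σ) (hτ : Sto τ) (x : St) : 0 ≤ mat σ τ x := by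
  have := hσ.1 x; have := hτ.1 x
  unfold mat
  have h0 := mul_nonneg (hσ.1 x 0) (hτ.1 x 0)
  have h1 := mul_nonneg (hσ.1 x 1) (hτ.1 x 1)
  have h2 := mul_nonneg (hσ.1 x 2) (hτ.1 x 2)
  linarith

lemma le_one (hσ : Sto σ) (x : St) (a : Fin 3) : σ x a ≤ 1 := by
  rw [← hσ.2 x]
  exact Finset.single_le_sum (fun i _ => hσ.1 x i) (Finset.mem_univ a)

lemma mat_le_one (hσ : Sto σ) (hτ : Sto τ) (x : St) : mat σ τ x ≤ 1 := by
  unfold mat
  have h := sum3 hσ x
  have h0 := mul_le_mul_of_nonneg_left (le_one hτ x 0) (hσ.1 x 0)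
  have h1 := mul_le_mul_of_nonneg_left (le_one hτ x 1) (hσ.1 x 1)
  have h2 := mul_le_mul_of_nonneg_left (le_one hτ x 2) (hσ.1 x 2)
  linarith

section eqs

variable (hσ : Sto σ) (hτ : Sto τ)
include hσ hτ

lemma val_nonneg (s : St) : 0 ≤ val σ τ T s := rch_nonneg (isKer hσ hτ) s
lemma val_le_one (s : St) : val σ τ T s ≤ 1 := rch_le_one (isKer hσ hτ) s

lemma val_mem {s : St} (h : s ∈ T) : val σ τ T s = 1 := rch_mem (isKer hσ hτ) h

lemma val_X (h : X ∉ T) :
    val σ τ T X = σ X 0 * val σ τ T F + (1 - σ X 0) * val σ τ T Y := by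
  have := rch_ite (next := nxt) (isKer hσ hτ) h (fun a _ => a = 0) (s := F) (t := Y)
    (fun a b => rfl)
  rw [sum_fst hτ X] at this
  exact this

lemma val_Y (h : Y ∉ T) :
    val σ τ T Y = τ Y 0 * val σ τ T G + (1 - τ Y 0) * val σ τ T X := by
  have := rch_ite (next := nxt) (isKer hσ hτ) h (fun _ b => b = 0) (s := G) (t := X)
    (fun a b => rfl)
  rw [sum_snd hσ Y] at this
  exact this

lemma val_F (h : F ∉ T) :
    val σ τ T F = mat σ τ F * val σ τ T U + (1 - mat σ τ F) * val σ τ T W := by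
  have := rch_ite (next := nxt) (isKer hσ hτ) h (fun a b => a = b) (s := U) (t := W)
    (fun a b => rfl)
  rw [sum_mat F] at this
  exact this

lemma val_G (h : G ∉ T) :
    val σ τ T G = mat σ τ G * val σ τ T V + (1 - mat σ τ G) * val σ τ T Z := by
  have := rch_ite (next := nxt) (isKer hσ hτ) h (fun a b => a = b) (s := V) (t := Z)
    (fun a b => rfl)
  rw [sum_mat G] at this
  exact this

lemma val_W (h : W ∉ T) :
    val σ τ T W = τ W 0 * val σ τ T X + (1 - τ W 0) * val σ τ T t1 := by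
  have := rch_ite (next := nxt) (isKer hσ hτ) h (fun _ b => b = 0) (s := X) (t := t1)
    (fun a b => rfl)
  rw [sum_snd hσ W] at this
  exact this

lemma val_Z (h : Z ∉ T) :
    val σ τ T Z = σ Z 0 * val σ τ T Y + (1 - σ Z 0) * val σ τ T t2 := by
  have := rch_ite (next := nxt) (isKer hσ hτ) h (fun a _ => a = 0) (s := Y) (t := t2)
    (fun a b => rfl)
  rw [sum_fst hτ Z] at this
  exact this

lemma val_U (h : U ∉ T) :
    val σ τ T U = mat σ τ U * val σ τ T w1 + (1 - mat σ τ U) * val σ τ T w2 := by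
  have := rch_ite (next := nxt) (isKer hσ hτ) h (fun a b => a = b) (s := w1) (t := w2)
    (fun a b => rfl)
  rw [sum_mat U] at this
  exact this

lemma val_V (h : V ∉ T) :
    val σ τ T V = mat σ τ V * val σ τ T w2 + (1 - mat σ τ V) * val σ τ T w1 := by
  have := rch_ite (next := nxt) (isKer hσ hτ) h (fun a b => a = b) (s := w2) (t := w1)
    (fun a b => rfl)
  rw [sum_mat V] at this
  exact this

lemma val_M (h : M ∉ T) :
    val σ τ T M = mum σ τ M * val σ τ T w1 + (1 - mum σ τ M) * val σ τ T w2 := by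
  have := rch_ite (next := nxt) (isKer hσ hτ) h (fun a b => (a = 0 ↔ b = 0)) (s := w1) (t := w2)
    (fun a b => rfl)
  rw [sum_mum hσ hτ M] at this
  exact this

lemma val_t (s : St) (h : s ∉ T) (hs : ∀ a b, nxt s a b = M) :
    val σ τ T s = val σ τ T M := by
  have := rch_ite (next := nxt) (isKer hσ hτ) h (fun _ _ => True) (s := M) (t := M)
    (fun a b => by simp [hs a b])
  unfold val
  rw [this]; ring

lemma val_closed (C : Set St) (hT : ∀ x ∈ C, x ∉ T)
    (hC : ∀ x ∈ C, ∀ a b, σ x a ≠ 0 → τ x b ≠ 0 → nxt x a b ∈ C) {x : St} (hx : x ∈ C) :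
    val σ τ T x = 0 := by
  refine rch_closed (isKer hσ hτ) C hT ?_ hx
  intro x hx a b hk
  refine hC x hx a b ?_ ?_
  · intro h; apply hk; simp [kk, h]
  · intro h; apply hk; simp [kk, h]

end eqs

end Pool.Agent.K3h3.Reach
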