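import Mathlib

/-!
# The inequalities behind the counterexample

`ε = 1/10000` and `δ = 1/100` throughout.
-/

set_option autoImplicit false

namespace Pool.Agent.K3h3.Reach

/-- Claim A: if player 2 exits at `Y` with positive probability then `y1 ≥ v1 - δ`. -/
lemma claimA {q n s v1 a z1 g1 y1 x1 : ℝ} (hq : 0 < q) (hq1 : q ≤ 1) (hn0 : 0 ≤ n) (hn1 : n ≤ 1)
    (hs0 : 0 ≤ s) (hs1 : s ≤ 1) (hv : 2 / 3 - 1 / 10000 ≤ v1)
    (ha' : a ≤ 1 / 2 + 1 / 10000) (hz : z1 = s * y1 + (1 - s) * a)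
    (hg : g1 = n * v1 + (1 - n) * z1) (hy : y1 = q * g1 + (1 - q) * x1)
    (L1 : y1 ≤ x1 + 1 / 10000) (L4 : y1 ≤ z1 + 1 / 10000)
    (L6 : v1 + 2 * z1 ≤ 3 * g1 + 3 / 10000)
    (G1 : n * v1 + (1 - n) * (1 - s) * a ≤ (x1 + 1 / 10000) * (n + (1 - n) * (1 - s))) :
    v1 - 1 / 100 ≤ y1 := by
  by_contra hcon
  push Not at hcon
  -- `v1 - z1 ≥ δ`
  have h1 : 1 / 100 ≤ v1 - z1 := by
    have hm : z1 ≤ max y1 a := by
      rw [hz]
      have h1 := mul_le_mul_of_nonneg_left (le_max_left y1 a) hs0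
      have h2 := mul_le_mul_of_nonneg_left (le_max_right y1 a) (by linarith : 0 ≤ 1 - s)
      linarith
    have hm2 : max y1 a ≤ v1 - 1 / 100 := max_le hcon.le (by linarith)
    linarith
  -- `n ≥ 1/3 - 1/100`
  have h2 : 1 / 3 - 1 / 100 ≤ n := by
    have h3 : -(3 / 10000) ≤ (3 * n - 1) * (v1 - z1) := by
      have : (3 * n - 1) * (v1 - z1) = 3 * g1 - (v1 + 2 * z1) := by rw [hg]; ring
      linarith
    by_contra hn
    push Not at hn
    have h4 : (3 * n - 1) * (v1 - z1) ≤ (3 * n - 1) * (1 / 100) := by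
      apply mul_le_mul_of_nonpos_left h1 (by linarith)
    nlinarith
  have h3 : g1 - y1 = n * (v1 - y1) + (1 - n) * (z1 - y1) := by rw [hg]; ring
  have h4 : 3 / 1000 ≤ g1 - y1 := by
    rw [h3]
    have h5 : n * (1 / 100) ≤ n * (v1 - y1) := mul_le_mul_of_nonneg_left (by linarith) hn0
    have h6 : (1 - n) * (-(1 / 10000)) ≤ (1 - n) * (z1 - y1) :=
      mul_le_mul_of_nonneg_left (by linarith) (by linarith)
    linarith
  have hD : n + (1 - n) * (1 - s) ≤ 1 := by nlinarith [mul_nonneg (by linarith : 0 ≤ 1 - n) hs0]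
  have h7 : g1 - y1 = n * v1 + (1 - n) * (1 - s) * a - (n + (1 - n) * (1 - s)) * y1 := by
    rw [hg, hz]; ring
  have h8 : g1 - y1 ≤ x1 + 1 / 10000 - y1 := by
    have h9 : (x1 + 1 / 10000 - y1) * (n + (1 - n) * (1 - s)) ≤ (x1 + 1 / 10000 - y1) * 1 :=
      mul_le_mul_of_nonneg_left hD (by linarith)
    rw [h7]
    linarith
  have h10 : 2 / 1000 ≤ x1 - y1 := by linarith
  have h11 : q * (g1 - y1) + (1 - q) * (x1 - y1) = 0 := by
    have : q * (g1 - y1) + (1 - q) * (x1 - y1) = q * g1 + (1 - q) * x1 - y1 := by ring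
    rw [this, ← hy]; ring
  have h12 := mul_pos hq (by linarith : 0 < g1 - y1)
  have h13 := mul_nonneg (by linarith : 0 ≤ 1 - q) (by linarith : 0 ≤ x1 - y1)
  linarith

/-- Claim B: `q = 0 < p` is impossible. -/
lemma claimB {m r s u1 u2 v2 a b x1 x2 g2 z1 z2 : ℝ}
    (hm0 : 0 ≤ m) (hm1 : m ≤ 1) (hr1 : r ≤ 1) (hs0 : 0 ≤ s) (hs1 : s ≤ 1)
    (hu1' : u1 ≤ 1 / 3 + 1 / 10000)
    (hu2 : 2 / 3 - 1 / 10000 ≤ u2) (hu2' : u2 ≤ 2 / 3 + 1 / 10000)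
    (hv2 : 1 / 3 - 1 / 10000 ≤ v2) (ha : 1 / 2 - 1 / 10000 ≤ a)
    (hb' : b ≤ 1 / 2 + 1 / 10000)
    (hx0 : 0 ≤ x1) (hx20 : 0 ≤ x2)
    (hx2 : u2 - 1 / 100 ≤ x2)
    (e1 : m * (u1 - x1) + (1 - m) * (1 - r) * (1 - x1) = 0)
    (e2 : m * (u2 - x2) + (1 - m) * (1 - r) * (b - x2) = 0)
    (hD : m + (1 - m) * (1 - r) ≠ 0)
    (hz1 : z1 = s * x1 + (1 - s) * a) (hz2 : z2 = s * x2 + (1 - s))
    (L2 : g2 ≤ x2 + 1 / 10000)
    (L4 : a ≤ z1 + 1 / 10000)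
    (L6 : v2 + 2 * z2 ≤ 3 * g2 + 3 / 10000) : False := by
  set κ : ℝ := (1 - m) * (1 - r) with hκ
  have hκ0 : 0 ≤ κ := mul_nonneg (by linarith) (by linarith)
  have h1 : 15 / 100 ≤ x2 - b := by linarith
  have h2 : κ * (15 / 100) ≤ κ * (x2 - b) := mul_le_mul_of_nonneg_left h1 hκ0
  have h3 : m * (u2 - x2) ≤ m * (1 / 100) := mul_le_mul_of_nonneg_left (by linarith) hm0
  have h4 : κ * (15 / 100) ≤ m * (1 / 100) := by linarith
  have hm : 0 < m := by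
    rcases hm0.lt_or_eq with h | h
    · exact h
    · exfalso
      apply hD
      rw [← h] at h4 ⊢
      linarith
  have h5 : x1 ≤ u1 + 67 / 1000 := by
    have h6 : κ * (1 - x1) ≤ κ * 1 := mul_le_mul_of_nonneg_left (by linarith) hκ0
    have h7 : m * (x1 - u1) ≤ m * (67 / 1000) := by linarith
    have := le_of_mul_le_mul_left h7 hm
    linarith
  have h8 : x2 ≤ u2 := by
    by_contra hc
    push Not at hc
    have := mul_pos hm (by linarith : 0 < x2 - u2)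
    have := mul_nonneg hκ0 (by linarith : 0 ≤ x2 - b)
    linarith
  have h9 : s ≤ 1 / 500 := by
    have h10 : s * (1 / 12) ≤ s * (a - x1) := mul_le_mul_of_nonneg_left (by linarith) hs0
    have h11 : s * (a - x1) = a - z1 := by rw [hz1]; ring
    linarith
  have h12 : 1 - 1 / 500 ≤ z2 := by
    have := mul_nonneg hs0 hx20
    linarith
  linarith

/-- the final linear system -/
lemma final_lin {A B C E : ℝ} (hA : 0 ≤ A) (hB : 0 ≤ B) (hC : 0 ≤ C) (hE : 0 ≤ E)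
    (J1 : 15 / 100 * E ≤ 1 / 10000 * (A + B) + 1 / 100 * C)
    (J2 : 15 / 100 * B ≤ 1 / 10000 * (C + E) + 1 / 100 * A)
    (J3 : 32 / 100 * A ≤ 35 / 100 * B + 1 / 100 * C)
    (J4 : 32 / 100 * C ≤ 35 / 100 * E + 1 / 100 * A) : A + B + C + E ≤ 0 := by
  linarith

/-- Claim C: when `p, q > 0`, the absorption weights vanish. -/
lemma claimC {p q m n κ κ' u1 u2 v1 v2 a b x1 x2 y1 y2 : ℝ}
    (hp0 : 0 ≤ p) (hp1 : p ≤ 1) (hq0 : 0 ≤ q) (hq1 : q ≤ 1)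
    (hm0 : 0 ≤ m) (hn0 : 0 ≤ n) (hκ0 : 0 ≤ κ) (hκ'0 : 0 ≤ κ')
    (hu1' : u1 ≤ 1 / 3 + 1 / 10000)
    (hu2 : 2 / 3 - 1 / 10000 ≤ u2)
    (hv1 : 2 / 3 - 1 / 10000 ≤ v1)
    (hv2' : v2 ≤ 1 / 3 + 1 / 10000)
    (ha' : a ≤ 1 / 2 + 1 / 10000) (hb' : b ≤ 1 / 2 + 1 / 10000)
    (hx2 : u2 - 1 / 100 ≤ x2) (hy1 : v1 - 1 / 100 ≤ y1)
    (L1 : y1 ≤ x1 + 1 / 10000) (L2 : x2 ≤ y2 + 1 / 10000)
    (G2 : m * u1 + κ ≤ (x1 + 1 / 10000) * (m + κ))
    (G4 : n * v2 + κ' ≤ (y2 + 1 / 10000) * (n + κ'))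
    (i1 : p * (m * (u1 - x1) + κ * (1 - x1)) = (1 - p) * (x1 - y1))
    (i2 : p * (m * (u2 - x2) + κ * (b - x2)) = (1 - p) * (x2 - y2))
    (k1 : q * (n * (v1 - y1) + κ' * (a - y1)) = (1 - q) * (y1 - x1))
    (k2 : q * (n * (v2 - y2) + κ' * (1 - y2)) = (1 - q) * (y2 - x2)) :
    (1 - q) * p * (m + κ) = 0 ∧ (1 - p) * q * (n + κ') = 0 := by
  set S : ℝ := (1 - q) * p with hS
  set S' : ℝ := (1 - p) * q with hS'
  have hS0 : 0 ≤ S := mul_nonneg (by linarith) hp0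
  have hS'0 : 0 ≤ S' := mul_nonneg (by linarith) hq0
  have c1 : S * m * (u1 - x1) + S * κ * (1 - x1) + S' * n * (v1 - y1) + S' * κ' * (a - y1) = 0 := by
    rw [hS, hS']
    linear_combination (1 - q) * i1 + (1 - p) * k1
  have c2 : S * m * (u2 - x2) + S * κ * (b - x2) + S' * n * (v2 - y2) + S' * κ' * (1 - y2) = 0 := by
    rw [hS, hS']
    linear_combination (1 - q) * i2 + (1 - p) * k2
  have g2 : S * κ * (1 - x1) ≤ S * m * (x1 - u1) + 1 / 10000 * (S * m + S * κ) := by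
    have := mul_le_mul_of_nonneg_left G2 hS0
    linarith
  have g4 : S' * κ' * (1 - y2) ≤ S' * n * (y2 - v2) + 1 / 10000 * (S' * n + S' * κ') := by
    have := mul_le_mul_of_nonneg_left G4 hS'0
    linarith
  have hA : 0 ≤ S * m := mul_nonneg hS0 hm0
  have hB : 0 ≤ S * κ := mul_nonneg hS0 hκ0
  have hC : 0 ≤ S' * n := mul_nonneg hS'0 hn0
  have hE : 0 ≤ S' * κ' := mul_nonneg hS'0 hκ'0
  have e1 : S' * κ' * (15 / 100) ≤ S' * κ' * (y1 - a) :=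
    mul_le_mul_of_nonneg_left (by linarith) hE
  have e2 : S * κ * (15 / 100) ≤ S * κ * (x2 - b) :=
    mul_le_mul_of_nonneg_left (by linarith) hB
  have e3 : S' * n * (v1 - y1) ≤ S' * n * (1 / 100) :=
    mul_le_mul_of_nonneg_left (by linarith) hC
  have e4 : S * m * (u2 - x2) ≤ S * m * (1 / 100) :=
    mul_le_mul_of_nonneg_left (by linarith) hA
  have e5 : S * m * (32 / 100) ≤ S * m * (x1 - u1) :=
    mul_le_mul_of_nonneg_left (by linarith) hA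
  have e6 : S' * n * (32 / 100) ≤ S' * n * (y2 - v2) :=
    mul_le_mul_of_nonneg_left (by linarith) hC
  have e7 : S * κ * (1 - x1) ≤ S * κ * (35 / 100) :=
    mul_le_mul_of_nonneg_left (by linarith) hB
  have e8 : S' * κ' * (1 - y2) ≤ S' * κ' * (35 / 100) :=
    mul_le_mul_of_nonneg_left (by linarith) hE
  have e9 : 0 ≤ S' * κ' * (y1 - a) := mul_nonneg hE (by linarith)
  have e10 : 0 ≤ S * κ * (x2 - b) := mul_nonneg hB (by linarith)
  have := final_lin hA hB hC hE (by linarith) (by linarith) (by linarith) (by linarith)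
  constructor
  · rw [mul_add]; linarith
  · rw [mul_add]; linarith

/-- Claim D: `p = 1`-type contradiction. -/
lemma claimD {m κ u1 u2 b x1 x2 : ℝ} (hm0 : 0 ≤ m) (hκ0 : 0 ≤ κ)
    (hu1' : u1 ≤ 1 / 3 + 1 / 10000)
    (hu2 : 2 / 3 - 1 / 10000 ≤ u2) (hb' : b ≤ 1 / 2 + 1 / 10000)
    (hx1 : 65 / 100 ≤ x1) (hx2 : u2 - 1 / 100 ≤ x2)
    (e1 : m * (u1 - x1) + κ * (1 - x1) = 0)
    (e2 : m * (u2 - x2) + κ * (b - x2) = 0) : m + κ = 0 := by
  have h1 : κ * (15 / 100) ≤ κ * (x2 - b) := mul_le_mul_of_nonneg_left (by linarith) hκ0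
  have h2 : m * (u2 - x2) ≤ m * (1 / 100) := mul_le_mul_of_nonneg_left (by linarith) hm0
  have h3 : κ * (1 - x1) ≤ κ * (35 / 100) := mul_le_mul_of_nonneg_left (by linarith) hκ0
  have h4 : m * (30 / 100) ≤ m * (x1 - u1) := mul_le_mul_of_nonneg_left (by linarith) hm0
  linarith

end Pool.Agent.K3h3.Reach
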