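import Pool.Agent.K3h3.ReachGame
import Pool.Agent.K3h3.ReachNum

/-!
# No stationary `1/10000`-Nash equilibrium
-/

set_option autoImplicit false

namespace Pool.Agent.K3h3.Reach

open St

/-- the threshold -/
noncomputable def ep : ℝ := 1 / 10000

lemma nX1 : X ∉ T1 := by simp [T1]
lemma nY1 : Y ∉ T1 := by simp [T1]
lemma nF1 : F ∉ T1 := by simp [T1]
lemma nG1 : G ∉ T1 := by simp [T1]
lemma nW1 : W ∉ T1 := by simp [T1]
lemma nZ1 : Z ∉ T1 := by simp [T1]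
lemma nU1 : U ∉ T1 := by simp [T1]
lemma nV1 : V ∉ T1 := by simp [T1]
lemma nM1 : M ∉ T1 := by simp [T1]
lemma nt21 : t2 ∉ T1 := by simp [T1]
lemma nw21 : w2 ∉ T1 := by simp [T1]
lemma mt1 : t1 ∈ T1 := by simp [T1]
lemma mw1 : w1 ∈ T1 := by simp [T1]
lemma nX2 : X ∉ T2 := by simp [T2]
lemma nY2 : Y ∉ T2 := by simp [T2]
lemma nF2 : F ∉ T2 := by simp [T2]
lemma nG2 : G ∉ T2 := by simp [T2]
lemma nW2 : W ∉ T2 := by simp [T2]
lemma nZ2 : Z ∉ T2 := by simp [T2]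
lemma nU2 : U ∉ T2 := by simp [T2]
lemma nV2 : V ∉ T2 := by simp [T2]
lemma nM2 : M ∉ T2 := by simp [T2]
lemma nt12 : t1 ∉ T2 := by simp [T2]
lemma nw12 : w1 ∉ T2 := by simp [T2]
lemma mt2 : t2 ∈ T2 := by simp [T2]
lemma mw2 : w2 ∈ T2 := by simp [T2]

section

variable {σ τ : St → Fin 3 → ℝ}

section eqs

variable (hσ : Sto σ) (hτ : Sto τ)
include hσ hτ

lemma w2_1 : val σ τ T1 w2 = 0 :=
  val_closed hσ hτ {w2} (by simp [T1]) (by rintro x rfl a b _ _; rfl) rfl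

lemma w1_2 : val σ τ T2 w1 = 0 :=
  val_closed hσ hτ {w1} (by simp [T2]) (by rintro x rfl a b _ _; rfl) rfl

lemma X1 : val σ τ T1 X = σ X 0 * val σ τ T1 F + (1 - σ X 0) * val σ τ T1 Y :=
  val_X hσ hτ nX1
lemma X2 : val σ τ T2 X = σ X 0 * val σ τ T2 F + (1 - σ X 0) * val σ τ T2 Y :=
  val_X hσ hτ nX2
lemma Y1 : val σ τ T1 Y = τ Y 0 * val σ τ T1 G + (1 - τ Y 0) * val σ τ T1 X :=
  val_Y hσ hτ nY1
lemma Y2 : val σ τ T2 Y = τ Y 0 * val σ τ T2 G + (1 - τ Y 0) * val σ τ T2 X :=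
  val_Y hσ hτ nY2
lemma F1 : val σ τ T1 F = mat σ τ F * val σ τ T1 U + (1 - mat σ τ F) * val σ τ T1 W :=
  val_F hσ hτ nF1
lemma F2 : val σ τ T2 F = mat σ τ F * val σ τ T2 U + (1 - mat σ τ F) * val σ τ T2 W :=
  val_F hσ hτ nF2
lemma G1 : val σ τ T1 G = mat σ τ G * val σ τ T1 V + (1 - mat σ τ G) * val σ τ T1 Z :=
  val_G hσ hτ nG1
lemma G2 : val σ τ T2 G = mat σ τ G * val σ τ T2 V + (1 - mat σ τ G) * val σ τ T2 Z :=
  val_G hσ hτ nG2
lemma W1 : val σ τ T1 W = τ W 0 * val σ τ T1 X + (1 - τ W 0) := by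
  rw [val_W hσ hτ nW1, val_mem hσ hτ mt1, mul_one]
lemma W2 : val σ τ T2 W = τ W 0 * val σ τ T2 X + (1 - τ W 0) * val σ τ T2 M := by
  rw [val_W hσ hτ nW2, val_t hσ hτ t1 nt12 (fun _ _ => rfl)]
lemma Z1 : val σ τ T1 Z = σ Z 0 * val σ τ T1 Y + (1 - σ Z 0) * val σ τ T1 M := by
  rw [val_Z hσ hτ nZ1, val_t hσ hτ t2 nt21 (fun _ _ => rfl)]
lemma Z2 : val σ τ T2 Z = σ Z 0 * val σ τ T2 Y + (1 - σ Z 0) := by
  rw [val_Z hσ hτ nZ2, val_mem hσ hτ mt2, mul_one]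
lemma U1 : val σ τ T1 U = mat σ τ U := by
  rw [val_U hσ hτ nU1, val_mem hσ hτ mw1, w2_1 hσ hτ]; ring
lemma U2 : val σ τ T2 U = 1 - mat σ τ U := by
  rw [val_U hσ hτ nU2, val_mem hσ hτ mw2, w1_2 hσ hτ]; ring
lemma V1 : val σ τ T1 V = 1 - mat σ τ V := by
  rw [val_V hσ hτ nV1, val_mem hσ hτ mw1, w2_1 hσ hτ]; ring
lemma V2 : val σ τ T2 V = mat σ τ V := by
  rw [val_V hσ hτ nV2, val_mem hσ hτ mw2, w1_2 hσ hτ]; ring
lemma M1 : val σ τ T1 M = mum σ τ M := by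
  rw [val_M hσ hτ nM1, val_mem hσ hτ mw1, w2_1 hσ hτ]; ring
lemma M2 : val σ τ T2 M = 1 - mum σ τ M := by
  rw [val_M hσ hτ nM2, val_mem hσ hτ mw2, w1_2 hσ hτ]; ring

end eqs

/-- pure deviations are stochastic -/
lemma sto_update (hσ : Sto σ) (x : St) (a : Fin 3) :
    Sto (Function.update σ x (Pi.single a 1)) := by
  constructor
  · intro s c
    by_cases hs : s = x
    · subst hs
      rw [Function.update_self]
      by_cases hc : c = a
      · subst hc; simp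
      · simp [hc]
    · rw [Function.update_of_ne hs]; exact hσ.1 s c
  · intro s
    by_cases hs : s = x
    · subst hs
      rw [Function.update_self]
      simp
    · rw [Function.update_of_ne hs]; exact hσ.2 s

/-- the equilibrium hypothesis of player 1 -/
def Eq1 (σ τ : St → Fin 3 → ℝ) : Prop :=
  ∀ s, ∀ σ', Sto σ' → val σ' τ T1 s ≤ val σ τ T1 s + 1 / 10000
/-- the equilibrium hypothesis of player 2 -/
def Eq2 (σ τ : St → Fin 3 → ℝ) : Prop :=
  ∀ s, ∀ τ', Sto τ' → val σ τ' T2 s ≤ val σ τ T2 s + 1 / 10000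

lemma local1 (hσ : Sto σ) (hτ : Sto τ) (h : Eq1 σ τ) {x : St} (hx : x ∉ T1) (a : Fin 3) :
    ∑ b, τ x b * val σ τ T1 (nxt x a b) ≤ val σ τ T1 x + 1 / 10000 := by
  have h1 := oneshot (next := nxt) (T := T1) (isKer hσ hτ) (isKer (sto_update hσ x a) hτ) hx (by
    intro t ht c d
    simp [kk, Function.update_of_ne ht])
  have h2 : ∑ c, ∑ b, kk (Function.update σ x (Pi.single a 1)) τ x c b *
      rch nxt (kk σ τ) T1 (nxt x c b) = ∑ b, τ x b * val σ τ T1 (nxt x a b) := by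
    rw [Finset.sum_eq_single a]
    · refine Finset.sum_congr rfl fun b _ => ?_
      simp [kk, val]
    · intro c _ hc
      refine Finset.sum_eq_zero fun b _ => ?_
      simp [kk, hc]
    · intro h; exact absurd (Finset.mem_univ a) h
  rw [h2] at h1
  refine h1.trans (max_le ?_ (h x _ (sto_update hσ x a)))
  have : val σ τ T1 x = rch nxt (kk σ τ) T1 x := rfl
  linarith

lemma local2 (hσ : Sto σ) (hτ : Sto τ) (h : Eq2 σ τ) {x : St} (hx : x ∉ T2) (b : Fin 3) :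
    ∑ a, σ x a * val σ τ T2 (nxt x a b) ≤ val σ τ T2 x + 1 / 10000 := by
  have h1 := oneshot (next := nxt) (T := T2) (isKer hσ hτ) (isKer hσ (sto_update hτ x b)) hx (by
    intro t ht c d
    simp [kk, Function.update_of_ne ht])
  have h2 : ∑ a, ∑ c, kk σ (Function.update τ x (Pi.single b 1)) x a c *
      rch nxt (kk σ τ) T2 (nxt x a c) = ∑ a, σ x a * val σ τ T2 (nxt x a b) := by
    refine Finset.sum_congr rfl fun a _ => ?_
    rw [Finset.sum_eq_single b]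
    · simp [kk, val]
    · intro c _ hc
      simp [kk, hc]
    · intro h; exact absurd (Finset.mem_univ b) h
  rw [h2] at h1
  refine h1.trans (max_le ?_ (h x _ (sto_update hτ x b)))
  have : val σ τ T2 x = rch nxt (kk σ τ) T2 x := rfl
  linarith

lemma match1 (hσ : Sto σ) (hτ : Sto τ) (h : Eq1 σ τ) {x s t : St} (hx : x ∉ T1)
    (hn : ∀ a b, nxt x a b = if a = b then s else t) :
    val σ τ T1 s + 2 * val σ τ T1 t ≤ 3 * val σ τ T1 x + 3 / 10000 := by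
  have h0 := local1 hσ hτ h hx 0
  have h1 := local1 hσ hτ h hx 1
  have h2 := local1 hσ hτ h hx 2
  have h3 := sum3 hτ x
  simp only [hn, Fin.sum_univ_three] at h0 h1 h2
  simp at h0 h1 h2
  have h4 : val σ τ T1 s + 2 * val σ τ T1 t =
      (τ x 0 * val σ τ T1 s + τ x 1 * val σ τ T1 t + τ x 2 * val σ τ T1 t) +
      (τ x 0 * val σ τ T1 t + τ x 1 * val σ τ T1 s + τ x 2 * val σ τ T1 t) +
      (τ x 0 * val σ τ T1 t + τ x 1 * val σ τ T1 t + τ x 2 * val σ τ T1 s) := by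
    linear_combination (-(val σ τ T1 s) - 2 * val σ τ T1 t) * h3
  rw [h4]
  linarith

lemma match2 (hσ : Sto σ) (hτ : Sto τ) (h : Eq2 σ τ) {x s t : St} (hx : x ∉ T2)
    (hn : ∀ a b, nxt x a b = if a = b then s else t) :
    val σ τ T2 s + 2 * val σ τ T2 t ≤ 3 * val σ τ T2 x + 3 / 10000 := by
  have h0 := local2 hσ hτ h hx 0
  have h1 := local2 hσ hτ h hx 1
  have h2 := local2 hσ hτ h hx 2
  have h3 := sum3 hσ x
  simp only [hn, Fin.sum_univ_three] at h0 h1 h2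
  simp at h0 h1 h2
  have h4 : val σ τ T2 s + 2 * val σ τ T2 t =
      (σ x 0 * val σ τ T2 s + σ x 1 * val σ τ T2 t + σ x 2 * val σ τ T2 t) +
      (σ x 0 * val σ τ T2 t + σ x 1 * val σ τ T2 s + σ x 2 * val σ τ T2 t) +
      (σ x 0 * val σ τ T2 t + σ x 1 * val σ τ T2 t + σ x 2 * val σ τ T2 s) := by
    linear_combination (-(val σ τ T2 s) - 2 * val σ τ T2 t) * h3
  rw [h4]
  linarith

/-- player 1 alone moves at `x` -/
lemma solo1 (hσ : Sto σ) (hτ : Sto τ) (h : Eq1 σ τ) {x s : St} (hx : x ∉ T1) (a : Fin 3)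
    (hn : ∀ b, nxt x a b = s) : val σ τ T1 s ≤ val σ τ T1 x + 1 / 10000 := by
  have h0 := local1 hσ hτ h hx a
  simp only [hn, ← Finset.sum_mul, hτ.2, one_mul] at h0
  exact h0

lemma solo2 (hσ : Sto σ) (hτ : Sto τ) (h : Eq2 σ τ) {x s : St} (hx : x ∉ T2) (b : Fin 3)
    (hn : ∀ a, nxt x a b = s) : val σ τ T2 s ≤ val σ τ T2 x + 1 / 10000 := by
  have h0 := local2 hσ hτ h hx b
  simp only [hn, ← Finset.sum_mul, hσ.2, one_mul] at h0
  exact h0

/-- never exit at `X` -/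
lemma glob1 (hσ : Sto σ) (hτ : Sto τ) (h : Eq1 σ τ) (hq : 0 < τ Y 0) :
    mat σ τ G * val σ τ T1 V + (1 - mat σ τ G) * (1 - σ Z 0) * val σ τ T1 M ≤
      (val σ τ T1 X + 1 / 10000) * (mat σ τ G + (1 - mat σ τ G) * (1 - σ Z 0)) := by
  have hσ' := sto_update hσ X 1
  have hX := h X _ hσ'
  set σ' := Function.update σ X (Pi.single 1 1) with hs
  have a1 : σ' X 0 = 0 := by simp [hs]
  have a2 : mat σ' τ G = mat σ τ G := by simp [hs, mat]
  have a3 : σ' Z 0 = σ Z 0 := by simp [hs]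
  have a4 : mat σ' τ V = mat σ τ V := by simp [hs, mat]
  have a5 : mum σ' τ M = mum σ τ M := by simp [hs, mum]
  have eX := X1 hσ' hτ
  have eY := Y1 hσ' hτ
  have eG := G1 hσ' hτ
  have eZ := Z1 hσ' hτ
  have eV := V1 hσ' hτ
  have eM := M1 hσ' hτ
  have eV' := V1 hσ hτ
  have eM' := M1 hσ hτ
  rw [a1] at eX
  rw [a2] at eG
  rw [a3] at eZ
  rw [a4] at eV
  rw [a5] at eM
  have e1 : val σ' τ T1 X = val σ' τ T1 Y := by linarith
  have e2 : val σ' τ T1 G = val σ' τ T1 X := by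
    have : τ Y 0 * (val σ' τ T1 G - val σ' τ T1 X) = 0 := by linarith
    rcases mul_eq_zero.1 this with h | h
    · exact absurd h hq.ne'
    · linarith
  have e3 : mat σ τ G * val σ τ T1 V + (1 - mat σ τ G) * (1 - σ Z 0) * val σ τ T1 M =
      val σ' τ T1 X * (mat σ τ G + (1 - mat σ τ G) * (1 - σ Z 0)) := by
    rw [eV', eM', ← eV, ← eM]
    rw [eZ, ← e1, e2] at eG
    linear_combination -eG
  rw [e3]
  apply mul_le_mul_of_nonneg_right hX
  have m0 := mat_nonneg hσ hτ G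
  have m1 := mat_le_one hσ hτ G
  have z1 := le_one hσ Z 0
  have := mul_nonneg (by linarith : 0 ≤ 1 - mat σ τ G) (by linarith : 0 ≤ 1 - σ Z 0)
  linarith

/-- always exit at `X` -/
lemma glob2 (hσ : Sto σ) (hτ : Sto τ) (h : Eq1 σ τ) :
    mat σ τ F * val σ τ T1 U + (1 - mat σ τ F) * (1 - τ W 0) ≤
      (val σ τ T1 X + 1 / 10000) * (mat σ τ F + (1 - mat σ τ F) * (1 - τ W 0)) := by
  have hσ' := sto_update hσ X 0
  have hX := h X _ hσ'
  set σ' := Function.update σ X (Pi.single 0 1) with hs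
  have a1 : σ' X 0 = 1 := by simp [hs]
  have a2 : mat σ' τ F = mat σ τ F := by simp [hs, mat]
  have a4 : mat σ' τ U = mat σ τ U := by simp [hs, mat]
  have eX := X1 hσ' hτ
  have eF := F1 hσ' hτ
  have eW := W1 hσ' hτ
  have eU := U1 hσ' hτ
  have eU' := U1 hσ hτ
  rw [a1] at eX
  rw [a2] at eF
  rw [a4] at eU
  have e1 : val σ' τ T1 X = val σ' τ T1 F := by linarith
  have e3 : mat σ τ F * val σ τ T1 U + (1 - mat σ τ F) * (1 - τ W 0) =
      val σ' τ T1 X * (mat σ τ F + (1 - mat σ τ F) * (1 - τ W 0)) := by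
    rw [eU', ← eU]
    rw [eW, ← e1] at eF
    linear_combination -eF
  rw [e3]
  apply mul_le_mul_of_nonneg_right hX
  have m0 := mat_nonneg hσ hτ F
  have m1 := mat_le_one hσ hτ F
  have z1 := le_one hτ W 0
  have := mul_nonneg (by linarith : 0 ≤ 1 - mat σ τ F) (by linarith : 0 ≤ 1 - τ W 0)
  linarith

/-- never exit at `Y` -/
lemma glob3 (hσ : Sto σ) (hτ : Sto τ) (h : Eq2 σ τ) (hp : 0 < σ X 0) :
    mat σ τ F * val σ τ T2 U + (1 - mat σ τ F) * (1 - τ W 0) * val σ τ T2 M ≤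
      (val σ τ T2 Y + 1 / 10000) * (mat σ τ F + (1 - mat σ τ F) * (1 - τ W 0)) := by
  have hτ' := sto_update hτ Y 1
  have hY := h Y _ hτ'
  set τ' := Function.update τ Y (Pi.single 1 1) with hs
  have a1 : τ' Y 0 = 0 := by simp [hs]
  have a2 : mat σ τ' F = mat σ τ F := by simp [hs, mat]
  have a3 : τ' W 0 = τ W 0 := by simp [hs]
  have a4 : mat σ τ' U = mat σ τ U := by simp [hs, mat]
  have a5 : mum σ τ' M = mum σ τ M := by simp [hs, mum]
  have eX := X2 hσ hτ'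
  have eY := Y2 hσ hτ'
  have eF := F2 hσ hτ'
  have eW := W2 hσ hτ'
  have eU := U2 hσ hτ'
  have eM := M2 hσ hτ'
  have eU' := U2 hσ hτ
  have eM' := M2 hσ hτ
  rw [a1] at eY
  rw [a2] at eF
  rw [a3] at eW
  rw [a4] at eU
  rw [a5] at eM
  have e1 : val σ τ' T2 Y = val σ τ' T2 X := by linarith
  have e2 : val σ τ' T2 F = val σ τ' T2 Y := by
    have : σ X 0 * (val σ τ' T2 F - val σ τ' T2 Y) = 0 := by linarith
    rcases mul_eq_zero.1 this with h | h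
    · exact absurd h hp.ne'
    · linarith
  have e3 : mat σ τ F * val σ τ T2 U + (1 - mat σ τ F) * (1 - τ W 0) * val σ τ T2 M =
      val σ τ' T2 Y * (mat σ τ F + (1 - mat σ τ F) * (1 - τ W 0)) := by
    rw [eU', eM', ← eU, ← eM]
    rw [eW, ← e1, e2] at eF
    linear_combination -eF
  rw [e3]
  apply mul_le_mul_of_nonneg_right hY
  have m0 := mat_nonneg hσ hτ F
  have m1 := mat_le_one hσ hτ F
  have z1 := le_one hτ W 0
  have := mul_nonneg (by linarith : 0 ≤ 1 - mat σ τ F) (by linarith : 0 ≤ 1 - τ W 0)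
  linarith

/-- always exit at `Y` -/
lemma glob4 (hσ : Sto σ) (hτ : Sto τ) (h : Eq2 σ τ) :
    mat σ τ G * val σ τ T2 V + (1 - mat σ τ G) * (1 - σ Z 0) ≤
      (val σ τ T2 Y + 1 / 10000) * (mat σ τ G + (1 - mat σ τ G) * (1 - σ Z 0)) := by
  have hτ' := sto_update hτ Y 0
  have hY := h Y _ hτ'
  set τ' := Function.update τ Y (Pi.single 0 1) with hs
  have a1 : τ' Y 0 = 1 := by simp [hs]
  have a2 : mat σ τ' G = mat σ τ G := by simp [hs, mat]
  have a4 : mat σ τ' V = mat σ τ V := by simp [hs, mat]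
  have eY := Y2 hσ hτ'
  have eG := G2 hσ hτ'
  have eZ := Z2 hσ hτ'
  have eV := V2 hσ hτ'
  have eV' := V2 hσ hτ
  rw [a1] at eY
  rw [a2] at eG
  rw [a4] at eV
  have e1 : val σ τ' T2 Y = val σ τ' T2 G := by linarith
  have e3 : mat σ τ G * val σ τ T2 V + (1 - mat σ τ G) * (1 - σ Z 0) =
      val σ τ' T2 Y * (mat σ τ G + (1 - mat σ τ G) * (1 - σ Z 0)) := by
    rw [eV', ← eV]
    rw [eZ, ← e1] at eG
    linear_combination -eG
  rw [e3]
  apply mul_le_mul_of_nonneg_right hY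
  have m0 := mat_nonneg hσ hτ G
  have m1 := mat_le_one hσ hτ G
  have z1 := le_one hσ Z 0
  have := mul_nonneg (by linarith : 0 ≤ 1 - mat σ τ G) (by linarith : 0 ≤ 1 - σ Z 0)
  linarith

end

end Pool.Agent.K3h3.Reach
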